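import Pool.Agent.R624.TB.Defs

/-!
# Project TB, piece (ax): goodness is axiomatised by first-order sentences (helper179)
-/

set_option autoImplicit false

namespace R624TB

open FirstOrder FirstOrder.Language Set

namespace Ax

/-- the predicate `Q` of structures and tuples is first-order definable, uniformly -/
def FO {k : ℕ} (Q : PG ℕ → (Fin k → ℕ) → Prop) : Prop :=
  ∃ φ : LL.BoundedFormula Empty k, ∀ (S : PG ℕ) (v : Empty → ℕ) (xs : Fin k → ℕ),
    @BoundedFormula.Realize LL ℕ (toStr S) Empty k φ v xs ↔ Q S xs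

variable {k : ℕ} {Q R : PG ℕ → (Fin k → ℕ) → Prop}

theorem FO.congr (hQ : FO Q) (h : ∀ S xs, Q S xs ↔ R S xs) : FO R := by
  obtain ⟨φ, hφ⟩ := hQ
  exact ⟨φ, fun S v xs => (hφ S v xs).trans (h S xs)⟩

theorem FO.imp (hQ : FO Q) (hR : FO R) : FO (fun S xs => Q S xs → R S xs) := by
  obtain ⟨φ, hφ⟩ := hQ
  obtain ⟨ψ, hψ⟩ := hR
  refine ⟨φ.imp ψ, fun S v xs => ?_⟩
  letI := toStr S
  rw [BoundedFormula.realize_imp, hφ, hψ]

theorem FO.const (p : Prop) : FO (k := k) (fun _ _ => p) := by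
  by_cases hp : p
  · refine ⟨⊥ ⟹ ⊥, fun S v xs => ?_⟩
    simp [hp]
  · refine ⟨⊥, fun S v xs => ?_⟩
    simp [hp]

theorem FO.not (hQ : FO Q) : FO (fun S xs => ¬ Q S xs) := hQ.imp (FO.const False)

theorem FO.and (hQ : FO Q) (hR : FO R) : FO (fun S xs => Q S xs ∧ R S xs) := by
  obtain ⟨φ, hφ⟩ := hQ
  obtain ⟨ψ, hψ⟩ := hR
  refine ⟨φ ⊓ ψ, fun S v xs => ?_⟩
  letI := toStr S
  rw [BoundedFormula.realize_inf, hφ, hψ]

theorem FO.iff (hQ : FO Q) (hR : FO R) : FO (fun S xs => Q S xs ↔ R S xs) :=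
  ((hQ.imp hR).and (hR.imp hQ)).congr fun _ _ => iff_iff_implies_and_implies.symm

theorem FO.forall {ι : Type} [Finite ι] {Q : ι → PG ℕ → (Fin k → ℕ) → Prop}
    (h : ∀ i, FO (Q i)) : FO (fun S xs => ∀ i, Q i S xs) := by
  choose φ hφ using h
  refine ⟨BoundedFormula.iInf φ, fun S v xs => ?_⟩
  letI := toStr S
  rw [BoundedFormula.realize_iInf]
  exact forall_congr' fun i => hφ i S v xs

theorem FO.forall_lt {n : ℕ} {Q : ℕ → PG ℕ → (Fin k → ℕ) → Prop}
    (h : ∀ i, FO (Q i)) : FO (fun S xs => ∀ i < n, Q i S xs) := by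
  refine (FO.forall (ι := Fin n) (Q := fun i => Q i) fun i => h i).congr fun S xs => ?_
  constructor
  · intro h i hi
    exact h ⟨i, hi⟩
  · intro h i
    exact h i i.2

theorem FO.ex {R : PG ℕ → (Fin k → ℕ) → ℕ → Prop}
    (h : FO (k := k + 1) (fun S ys => R S (fun i => ys i.castSucc) (ys (Fin.last k)))) :
    FO (fun S xs => ∃ y, R S xs y) := by
  obtain ⟨φ, hφ⟩ := h
  refine ⟨φ.ex, fun S v xs => ?_⟩
  letI := toStr S
  rw [BoundedFormula.realize_ex]
  refine exists_congr fun y => ?_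
  rw [hφ]
  simp

theorem FO.lt (i j : Fin k) : FO (fun S xs => S.lt (xs i) (xs j)) := by
  refine ⟨Relations.boundedFormula₂ (L := LL) Rel.lt (Term.var (Sum.inr i)) (Term.var (Sum.inr j)),
    fun S v xs => ?_⟩
  letI := toStr S
  rw [BoundedFormula.realize_rel₂]
  exact Iff.rfl

theorem FO.adj (i j : Fin k) : FO (fun S xs => S.adj (xs i) (xs j)) := by
  refine ⟨Relations.boundedFormula₂ (L := LL) Rel.adj (Term.var (Sum.inr i)) (Term.var (Sum.inr j)),
    fun S v xs => ?_⟩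
  letI := toStr S
  rw [BoundedFormula.realize_rel₂]
  exact Iff.rfl

theorem FO.P (i : Fin k) : FO (fun S xs => S.P (xs i)) := by
  refine ⟨Relations.boundedFormula₁ (L := LL) Rel.P (Term.var (Sum.inr i)),
    fun S v xs => ?_⟩
  letI := toStr S
  rw [BoundedFormula.realize_rel₁]
  exact Iff.rfl

theorem FO.W (n : ℕ) (i : Fin k) : FO (fun S xs => S.W n (xs i)) := by
  refine ⟨Relations.boundedFormula₁ (L := LL) (Rel.W n) (Term.var (Sum.inr i)),
    fun S v xs => ?_⟩
  letI := toStr S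
  rw [BoundedFormula.realize_rel₁]
  exact Iff.rfl

theorem FO.eq (i j : Fin k) : FO (fun _ xs => xs i = xs j) := by
  refine ⟨Term.bdEqual (L := LL) (Term.var (Sum.inr i)) (Term.var (Sum.inr j)),
    fun S v xs => ?_⟩
  letI := toStr S
  rw [BoundedFormula.realize_bdEqual]
  exact Iff.rfl

theorem transfer {S S' : PG ℕ} (h : ∀ φ : LL.Sentence, Sat (toStr S) φ → Sat (toStr S') φ)
    (hQ : FO Q) (hS : ∀ xs, Q S xs) : ∀ xs, Q S' xs := by
  obtain ⟨φ, hφ⟩ := hQ
  have h1 : Sat (toStr S) φ.alls := by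
    letI := toStr S
    unfold Sat Sentence.Realize
    rw [BoundedFormula.realize_alls]
    intro xs
    exact (hφ S _ xs).2 (hS xs)
  have h2 := h _ h1
  letI := toStr S'
  unfold Sat Sentence.Realize at h2
  rw [BoundedFormula.realize_alls] at h2
  intro xs
  exact (hφ S' _ xs).1 (h2 xs)

/-- the hypotheses of the extension axioms, over the indices -/
def Hyp (A B : Fin k → Prop) (p : Bool) (S : PG ℕ) (xs : Fin k → ℕ) : Prop :=
  (∀ i j, i ≠ j → ¬ xs i = xs j) ∧
  (∀ a b, A a → B b → S.lt (xs a) (xs b)) ∧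
  (∀ a i, A a → ¬ A i → ¬ S.lt (xs i) (xs a)) ∧
  (∀ b i, B b → ¬ B i → ¬ S.lt (xs b) (xs i)) ∧
  (∀ a, A a → S.P (xs a) → p = true) ∧
  (∀ b, B b → p = true → S.P (xs b))

/-- the level hypotheses -/
def HypL (A B : Fin k → Prop) (n : ℕ) (S : PG ℕ) (xs : Fin k → ℕ) : Prop :=
  (∀ a, A a → S.W n (xs a)) ∧ (∀ b, B b → ∀ m < n, ¬ S.W m (xs b))

/-- the conclusion -/
def Conc (A B C : Fin k → Prop) (p : Bool) (S : PG ℕ) (xs : Fin k → ℕ) (y : ℕ) : Prop :=
  (∀ i, ¬ y = xs i) ∧ (∀ i, S.lt (xs i) y ↔ A i) ∧ (∀ i, S.lt y (xs i) ↔ B i) ∧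
  (∀ i, S.adj y (xs i) ↔ C i) ∧ (S.P y ↔ p = true)

theorem FO_Hyp (A B : Fin k → Prop) (p : Bool) : FO (Hyp A B p) := by
  refine FO.and (FO.forall fun i => FO.forall fun j => (FO.const _).imp (FO.eq i j).not) ?_
  refine FO.and (FO.forall fun a => FO.forall fun b =>
    (FO.const _).imp ((FO.const _).imp (FO.lt a b))) ?_
  refine FO.and (FO.forall fun a => FO.forall fun i =>
    (FO.const _).imp ((FO.const _).imp (FO.lt i a).not)) ?_
  refine FO.and (FO.forall fun b => FO.forall fun i =>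
    (FO.const _).imp ((FO.const _).imp (FO.lt b i).not)) ?_
  refine FO.and (FO.forall fun a => (FO.const _).imp ((FO.P a).imp (FO.const _))) ?_
  exact FO.forall fun b => (FO.const _).imp ((FO.const _).imp (FO.P b))

theorem FO_HypL (A B : Fin k → Prop) (n : ℕ) : FO (HypL A B n) := by
  refine FO.and (FO.forall fun a => (FO.const _).imp (FO.W n a)) ?_
  exact FO.forall fun b => (FO.const _).imp (FO.forall_lt fun m => (FO.W m b).not)

theorem FO_Conc (A B C : Fin k → Prop) (p : Bool) :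
    FO (k := k + 1) (fun S ys => Conc A B C p S (fun i => ys i.castSucc) (ys (Fin.last k))) := by
  refine FO.and (FO.forall fun i => (FO.eq (Fin.last k) i.castSucc).not) ?_
  refine FO.and (FO.forall fun i => (FO.lt i.castSucc (Fin.last k)).iff (FO.const _)) ?_
  refine FO.and (FO.forall fun i => (FO.lt (Fin.last k) i.castSucc).iff (FO.const _)) ?_
  refine FO.and (FO.forall fun i => (FO.adj (Fin.last k) i.castSucc).iff (FO.const _)) ?_
  exact (FO.P (Fin.last k)).iff (FO.const _)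

theorem FO_ep1 (A B C : Fin k → Prop) (n : ℕ) (p : Bool) :
    FO (k := k) (fun S xs => Hyp A B p S xs → HypL A B n S xs →
      ∃ y, Conc A B C p S xs y ∧ S.W n y ∧ ∀ m < n, ¬ S.W m y) := by
  refine (FO_Hyp A B p).imp ((FO_HypL A B n).imp (FO.ex ?_))
  exact (FO_Conc A B C p).and ((FO.W n (Fin.last k)).and
    (FO.forall_lt fun m => (FO.W m (Fin.last k)).not))

theorem FO_ep2 (A B C : Fin k → Prop) (p : Bool) :
    FO (k := k) (fun S xs => Hyp A B p S xs → ∃ y, Conc A B C p S xs y) :=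
  (FO_Hyp A B p).imp (FO.ex (FO_Conc A B C p))

open Classical in
/-- the image of a set of indices -/
noncomputable def img (xs : Fin k → ℕ) (A : Fin k → Prop) : Finset ℕ :=
  (Finset.univ.filter A).image xs

theorem mem_img {xs : Fin k → ℕ} {A : Fin k → Prop} {z : ℕ} :
    z ∈ img xs A ↔ ∃ i, A i ∧ xs i = z := by
  classical
  simp [img]

theorem mem_img_inj {xs : Fin k → ℕ} (hinj : ∀ i j, i ≠ j → ¬ xs i = xs j) {A : Fin k → Prop}
    {i : Fin k} : xs i ∈ img xs A ↔ A i := by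
  rw [mem_img]
  constructor
  · rintro ⟨j, hj, hji⟩
    by_cases h : j = i
    · exact h ▸ hj
    · exact absurd hji (hinj j i h)
  · intro h
    exact ⟨i, h, rfl⟩

theorem valid_of_hyp {A B C : Fin k → Prop} {p : Bool} {S : PG ℕ} {xs : Fin k → ℕ}
    (h : Hyp A B p S xs) :
    Valid S (img xs fun _ => True) (img xs A) (img xs B) (img xs C) := by
  obtain ⟨hinj, hlt, hA, hB, -, -⟩ := h
  refine ⟨?_, ?_, ?_, ?_, ?_, ?_⟩
  · intro z hz
    obtain ⟨i, -, rfl⟩ := mem_img.1 hz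
    exact mem_img.2 ⟨i, trivial, rfl⟩
  · intro z hz
    obtain ⟨i, -, rfl⟩ := mem_img.1 hz
    exact mem_img.2 ⟨i, trivial, rfl⟩
  · intro z hz
    obtain ⟨i, -, rfl⟩ := mem_img.1 hz
    exact mem_img.2 ⟨i, trivial, rfl⟩
  · intro a ha z hz hlt'
    obtain ⟨i, hi, rfl⟩ := mem_img.1 ha
    obtain ⟨j, -, rfl⟩ := mem_img.1 hz
    by_contra hc
    rw [mem_img_inj hinj] at hc
    exact hA i j hi hc hlt'
  · intro b hb z hz hlt'
    obtain ⟨i, hi, rfl⟩ := mem_img.1 hb
    obtain ⟨j, -, rfl⟩ := mem_img.1 hz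
    by_contra hc
    rw [mem_img_inj hinj] at hc
    exact hB i j hi hc hlt'
  · intro a ha b hb
    obtain ⟨i, hi, rfl⟩ := mem_img.1 ha
    obtain ⟨j, hj, rfl⟩ := mem_img.1 hb
    exact hlt i j hi hj

theorem conc_of_real {A B C : Fin k → Prop} {p : Bool} {S : PG ℕ} {xs : Fin k → ℕ}
    (hinj : ∀ i j, i ≠ j → ¬ xs i = xs j) {y : ℕ}
    (h : Real S (img xs fun _ => True) (img xs A) (img xs B) (img xs C) y)
    (hp : S.P y ↔ p = true) : Conc A B C p S xs y := by
  have hm : ∀ i, xs i ∈ img xs fun _ => True := fun i => mem_img.2 ⟨i, trivial, rfl⟩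
  refine ⟨?_, ?_, ?_, ?_, hp⟩
  · intro i hi
    apply h.new
    rw [hi]
    exact hm i
  · intro i
    rw [h.below _ (hm i), mem_img_inj hinj]
  · intro i
    rw [h.above _ (hm i), mem_img_inj hinj]
  · intro i
    rw [h.adj _ (hm i), mem_img_inj hinj]

/-- an enumeration of a finite set -/
noncomputable def enum (F : Finset ℕ) (i : Fin F.card) : ℕ := (F.equivFin.symm i : ℕ)

theorem enum_mem (F : Finset ℕ) (i : Fin F.card) : enum F i ∈ F := (F.equivFin.symm i).2

theorem enum_inj (F : Finset ℕ) : ∀ i j, i ≠ j → ¬ enum F i = enum F j := by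
  intro i j hij h
  apply hij
  have : F.equivFin.symm i = F.equivFin.symm j := Subtype.ext h
  exact F.equivFin.symm.injective this

theorem exists_enum {F : Finset ℕ} {z : ℕ} (hz : z ∈ F) : ∃ i, enum F i = z :=
  ⟨F.equivFin ⟨z, hz⟩, by simp [enum]⟩

theorem hyp_of_valid {S : PG ℕ} {F A B C : Finset ℕ} {p : Bool} (h : Valid S F A B C)
    (h1 : ∀ a ∈ A, S.P a → p = true) (h2 : ∀ b ∈ B, p = true → S.P b) :
    Hyp (fun i => enum F i ∈ A) (fun i => enum F i ∈ B) p S (enum F) := by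
  refine ⟨enum_inj F, ?_, ?_, ?_, ?_, ?_⟩
  · intro a b ha hb
    exact h.lt _ ha _ hb
  · intro a i ha hi hlt
    exact hi (h.down _ ha _ (enum_mem F i) hlt)
  · intro b i hb hi hlt
    exact hi (h.up _ hb _ (enum_mem F i) hlt)
  · intro a ha
    exact h1 _ ha
  · intro b hb
    exact h2 _ hb

theorem real_of_conc {S : PG ℕ} {F A B C : Finset ℕ} {p : Bool} {y : ℕ}
    (h : Conc (fun i => enum F i ∈ A) (fun i => enum F i ∈ B) (fun i => enum F i ∈ C) p S
      (enum F) y) : Real S F A B C y := by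
  obtain ⟨hn, hA, hB, hC, -⟩ := h
  refine ⟨?_, ?_, ?_, ?_⟩
  · intro hy
    obtain ⟨i, hi⟩ := exists_enum hy
    exact hn i hi.symm
  · intro z hz
    obtain ⟨i, rfl⟩ := exists_enum hz
    exact hA i
  · intro z hz
    obtain ⟨i, rfl⟩ := exists_enum hz
    exact hB i
  · intro z hz
    obtain ⟨i, rfl⟩ := exists_enum hz
    exact hC i

end Ax

open Ax

theorem s_ax : S_ax := by
  intro S hS S' h
  refine ⟨?_, ?_, ?_, ?_, ?_, ?_, ?_, ?_, ?_⟩
  · have := transfer h (Q := fun (S : PG ℕ) (xs : Fin 1 → ℕ) => ¬ S.lt (xs 0) (xs 0))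
      (FO.lt 0 0).not (fun xs => hS.irr _)
    intro x
    exact this ![x]
  · have := transfer h (Q := fun (S : PG ℕ) (xs : Fin 3 → ℕ) =>
      S.lt (xs 0) (xs 1) → S.lt (xs 1) (xs 2) → S.lt (xs 0) (xs 2))
      ((FO.lt 0 1).imp ((FO.lt 1 2).imp (FO.lt 0 2))) (fun xs => hS.trans _ _ _)
    intro x y z
    exact this ![x, y, z]
  · have := transfer h (Q := fun (S : PG ℕ) (xs : Fin 2 → ℕ) =>
      S.adj (xs 0) (xs 1) → S.adj (xs 1) (xs 0))
      ((FO.adj 0 1).imp (FO.adj 1 0)) (fun xs => hS.adj_symm _ _)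
    intro x y
    exact this ![x, y]
  · have := transfer h (Q := fun (S : PG ℕ) (xs : Fin 1 → ℕ) => ¬ S.adj (xs 0) (xs 0))
      (FO.adj 0 0).not (fun xs => hS.adj_irr _)
    intro x
    exact this ![x]
  · have := transfer h (Q := fun (S : PG ℕ) (xs : Fin 2 → ℕ) =>
      S.lt (xs 0) (xs 1) → S.P (xs 0) → S.P (xs 1))
      ((FO.lt 0 1).imp ((FO.P 0).imp (FO.P 1))) (fun xs => hS.P_up _ _)
    intro x y
    exact this ![x, y]
  · intro n
    have := transfer h (Q := fun (S : PG ℕ) (xs : Fin 2 → ℕ) =>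
      S.lt (xs 0) (xs 1) → S.W n (xs 1) → S.W n (xs 0))
      ((FO.lt 0 1).imp ((FO.W n 1).imp (FO.W n 0))) (fun xs => hS.W_down n _ _)
    intro x y
    exact this ![x, y]
  · intro n
    have := transfer h (Q := fun (S : PG ℕ) (xs : Fin 1 → ℕ) =>
      S.W n (xs 0) → S.W (n + 1) (xs 0))
      ((FO.W n 0).imp (FO.W (n + 1) 0)) (fun xs => hS.W_mono n _)
    intro x
    exact this ![x]
  · intro F A B C n p hV hWA hWB hPA hPB
    have := transfer h (FO_ep1 (fun i => enum F i ∈ A) (fun i => enum F i ∈ B)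
      (fun i => enum F i ∈ C) n p) (by
        intro xs hH hL
        obtain ⟨y, hy1, hy2, hy3, hy4⟩ := hS.ep1 _ _ _ _ n p (valid_of_hyp hH)
          (by
            intro a ha
            obtain ⟨i, hi, rfl⟩ := mem_img.1 ha
            exact hL.1 i hi)
          (by
            intro a ha
            obtain ⟨i, hi, rfl⟩ := mem_img.1 ha
            exact hL.2 i hi)
          (by
            intro a ha
            obtain ⟨i, hi, rfl⟩ := mem_img.1 ha
            exact hH.2.2.2.2.1 i hi)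
          (by
            intro a ha
            obtain ⟨i, hi, rfl⟩ := mem_img.1 ha
            exact hH.2.2.2.2.2 i hi)
        exact ⟨y, conc_of_real hH.1 hy1 hy4, hy2, hy3⟩)
    obtain ⟨y, hy1, hy2, hy3⟩ := this (enum F) (hyp_of_valid hV hPA hPB)
      ⟨fun a ha => hWA _ ha, fun b hb => hWB _ hb⟩
    exact ⟨y, real_of_conc hy1, hy2, hy3, hy1.2.2.2.2⟩
  · intro F A B C p hV hPA hPB
    have := transfer h (FO_ep2 (fun i => enum F i ∈ A) (fun i => enum F i ∈ B)
      (fun i => enum F i ∈ C) p) (by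
        intro xs hH
        obtain ⟨y, hy1, hy4⟩ := hS.ep2 _ _ _ _ p (valid_of_hyp hH)
          (by
            intro a ha
            obtain ⟨i, hi, rfl⟩ := mem_img.1 ha
            exact hH.2.2.2.2.1 i hi)
          (by
            intro a ha
            obtain ⟨i, hi, rfl⟩ := mem_img.1 ha
            exact hH.2.2.2.2.2 i hi)
        exact ⟨y, conc_of_real hH.1 hy1 hy4⟩)
    obtain ⟨y, hy1⟩ := this (enum F) (hyp_of_valid hV hPA hPB)
    exact ⟨y, real_of_conc hy1, hy1.2.2.2.2⟩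

end R624TB
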