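import Pool.Agent.R624.TB.Defs

set_option autoImplicit false

namespace R624TB

lemma back_W_le {M : Type} {S : PG M} (hS : Good S) {i j : ℕ} (hij : i ≤ j) {x : M}
    (h : S.W i x) : S.W j x := by
  induction hij with
  | refl => exact h
  | step _ ih => exact hS.W_mono _ _ ih

/-- one step of the back-and-forth -/
theorem s_back : S_back := by
  intro M N S S' hS hS' ι _ m a b hT x
  classical
  by_cases hx : ∃ i0, x = a i0
  · obtain ⟨i0, rfl⟩ := hx
    exact ⟨b i0, fun i => ⟨(hT.1 i0 i).1, (hT.1 i0 i).2.1, (hT.1 i i0).2.1, (hT.1 i0 i).2.2⟩,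
      (hT.2 i0).1, (hT.2 i0).2⟩
  push Not at hx
  have := Fintype.ofFinite ι
  set F : Finset N := Finset.univ.image b with hF
  set A : Finset N := (Finset.univ.filter (fun i => S.lt (a i) x)).image b with hA
  set B : Finset N := (Finset.univ.filter (fun i => S.lt x (a i))).image b with hB
  set C : Finset N := (Finset.univ.filter (fun i => S.adj x (a i))).image b with hC
  have memF : ∀ i, b i ∈ F := fun i => by simp [hF]
  have memA : ∀ i, b i ∈ A ↔ S.lt (a i) x := by
    intro i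
    simp only [hA, Finset.mem_image, Finset.mem_filter, Finset.mem_univ, true_and]
    constructor
    · rintro ⟨j, hj, hji⟩
      rw [(hT.1 j i).1.2 hji] at hj
      exact hj
    · exact fun h => ⟨i, h, rfl⟩
  have memB : ∀ i, b i ∈ B ↔ S.lt x (a i) := by
    intro i
    simp only [hB, Finset.mem_image, Finset.mem_filter, Finset.mem_univ, true_and]
    constructor
    · rintro ⟨j, hj, hji⟩
      rw [(hT.1 j i).1.2 hji] at hj
      exact hj
    · exact fun h => ⟨i, h, rfl⟩
  have memC : ∀ i, b i ∈ C ↔ S.adj x (a i) := by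
    intro i
    simp only [hC, Finset.mem_image, Finset.mem_filter, Finset.mem_univ, true_and]
    constructor
    · rintro ⟨j, hj, hji⟩
      rw [(hT.1 j i).1.2 hji] at hj
      exact hj
    · exact fun h => ⟨i, h, rfl⟩
  have exA : ∀ z ∈ A, ∃ i, S.lt (a i) x ∧ b i = z := by
    intro z hz
    simpa only [hA, Finset.mem_image, Finset.mem_filter, Finset.mem_univ, true_and] using hz
  have exB : ∀ z ∈ B, ∃ i, S.lt x (a i) ∧ b i = z := by
    intro z hz
    simpa only [hB, Finset.mem_image, Finset.mem_filter, Finset.mem_univ, true_and] using hz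
  have exF : ∀ z ∈ F, ∃ i, b i = z := by
    intro z hz
    simpa only [hF, Finset.mem_image, Finset.mem_univ, true_and] using hz
  have hV : Valid S' F A B C := by
    refine ⟨?_, ?_, ?_, ?_, ?_, ?_⟩
    · exact Finset.image_subset_image (Finset.filter_subset _ _)
    · exact Finset.image_subset_image (Finset.filter_subset _ _)
    · exact Finset.image_subset_image (Finset.filter_subset _ _)
    · intro z hz w hw hwz
      obtain ⟨i, hi, rfl⟩ := exA z hz
      obtain ⟨j, rfl⟩ := exF w hw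
      exact (memA j).2 (hS.trans _ _ _ ((hT.1 j i).2.1.2 hwz) hi)
    · intro z hz w hw hwz
      obtain ⟨i, hi, rfl⟩ := exB z hz
      obtain ⟨j, rfl⟩ := exF w hw
      exact (memB j).2 (hS.trans _ _ _ hi ((hT.1 i j).2.1.2 hwz))
    · intro z hz w hw
      obtain ⟨i, hi, rfl⟩ := exA z hz
      obtain ⟨j, hj, rfl⟩ := exB w hw
      exact (hT.1 i j).2.1.1 (hS.trans _ _ _ hi hj)
  have hP1 : ∀ z ∈ A, S'.P z → decide (S.P x) = true := by
    intro z hz hzP
    obtain ⟨i, hi, rfl⟩ := exA z hz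
    exact decide_eq_true (hS.P_up _ _ hi ((hT.2 i).1.2 hzP))
  have hP2 : ∀ z ∈ B, decide (S.P x) = true → S'.P z := by
    intro z hz hzP
    obtain ⟨i, hi, rfl⟩ := exB z hz
    exact (hT.2 i).1.1 (hS.P_up _ _ hi (of_decide_eq_true hzP))
  have fin : ∀ y, Real S' F A B C y → (S'.P y ↔ decide (S.P x) = true) →
      (∀ n < m, (S.W n x ↔ S'.W n y)) →
      (∀ i, (x = a i ↔ y = b i) ∧ (S.lt x (a i) ↔ S'.lt y (b i)) ∧
    (S.lt (a i) x ↔ S'.lt (b i) y) ∧ (S.adj x (a i) ↔ S'.adj y (b i))) ∧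
    (S.P x ↔ S'.P y) ∧ ∀ n < m, (S.W n x ↔ S'.W n y) := by
    intro y hy hyP hyW
    refine ⟨fun i => ⟨⟨fun h => absurd h (hx i), ?_⟩, ?_, ?_, ?_⟩, ?_, hyW⟩
    · intro h
      exact absurd (h ▸ memF i) hy.new
    · rw [hy.above _ (memF i), memB]
    · rw [hy.below _ (memF i), memA]
    · rw [hy.adj _ (memF i), memC]
    · rw [hyP, decide_eq_true_iff]
  by_cases h1 : ∃ n, n < m ∧ S.W n x
  · obtain ⟨n0, hn0, hn0x⟩ := h1
    have hex : ∃ n, S.W n x := ⟨n0, hn0x⟩
    obtain ⟨n, hn, hmin⟩ : ∃ n, S.W n x ∧ ∀ k < n, ¬ S.W k x :=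
      ⟨Nat.find hex, Nat.find_spec hex, fun k hk => Nat.find_min hex hk⟩
    have hnm : n < m := by
      by_contra h
      exact hmin n0 (by omega) hn0x
    obtain ⟨y, hy, hyn, hyk, hyP⟩ := hS'.ep1 F A B C n (decide (S.P x)) hV
      (by
        intro z hz
        obtain ⟨i, hi, rfl⟩ := exA z hz
        exact ((hT.2 i).2 n hnm).1 (hS.W_down _ _ _ hi hn))
      (by
        intro z hz k hk hzk
        obtain ⟨i, hi, rfl⟩ := exB z hz
        exact hmin k hk (hS.W_down _ _ _ hi (((hT.2 i).2 k (by omega)).2 hzk)))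
      hP1 hP2
    refine ⟨y, fin y hy hyP ?_⟩
    intro j _
    by_cases hjn : n ≤ j
    · exact ⟨fun _ => back_W_le hS' hjn hyn, fun _ => back_W_le hS hjn hn⟩
    · exact ⟨fun h => absurd h (hmin j (by omega)), fun h => absurd h (hyk j (by omega))⟩
  · push Not at h1
    by_cases h2 : ∃ z ∈ A, Inf S' z
    · obtain ⟨z, hz, hzI⟩ := h2
      obtain ⟨y, hy, hyP⟩ := hS'.ep2 F A B C (decide (S.P x)) hV hP1 hP2
      refine ⟨y, fin y hy hyP ?_⟩
      intro j hj
      refine ⟨fun h => absurd h (h1 j hj), fun h => ?_⟩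
      exact absurd (hS'.W_down _ _ _ ((hy.below z (hV.hA hz)).2 hz) h) (hzI j)
    · have h3 : ∀ z ∈ A, ∃ k, S'.W k z := by
        intro z hz
        by_contra h
        exact h2 ⟨z, hz, fun n hn => h ⟨n, hn⟩⟩
      choose! g hg using h3
      have hex : ∃ n, m ≤ n ∧ ∀ z ∈ A, S'.W n z :=
        ⟨max m (A.sup g), le_max_left _ _, fun z hz =>
          back_W_le hS' ((Finset.le_sup (f := g) hz).trans (le_max_right _ _)) (hg z hz)⟩
      obtain ⟨n, ⟨hmn, hn⟩, hmin⟩ : ∃ n, (m ≤ n ∧ ∀ z ∈ A, S'.W n z) ∧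
          ∀ k < n, ¬ (m ≤ k ∧ ∀ z ∈ A, S'.W k z) :=
        ⟨Nat.find hex, Nat.find_spec hex, fun k hk => Nat.find_min hex hk⟩
      obtain ⟨y, hy, hyn, hyk, hyP⟩ := hS'.ep1 F A B C n (decide (S.P x)) hV hn
        (by
          intro z hz k hk hzk
          by_cases hkm : k < m
          · obtain ⟨i, hi, rfl⟩ := exB z hz
            exact h1 k hkm (hS.W_down _ _ _ hi (((hT.2 i).2 k hkm).2 hzk))
          · apply hmin k hk
            exact ⟨by omega, fun w hw => hS'.W_down _ _ _ (hV.lt w hw z hz) hzk⟩)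
        hP1 hP2
      refine ⟨y, fin y hy hyP ?_⟩
      intro j hj
      exact ⟨fun h => absurd h (h1 j hj), fun h => absurd h (hyk j (by omega))⟩

end R624TB
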