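import Pool.Agent.R624.TB.Defs

/-!
# Pieces (bf), (ee), (el): formulas are preserved by tuples of the same type
-/

set_option autoImplicit false

namespace R624TB

open FirstOrder Set

section

variable {M N ι κ : Type} {S : PG M} {S' : PG N} {m m' : ℕ} {a : ι → M} {b : ι → N}

theorem SameType.mono (h : SameType S S' m' a b) (hm : m ≤ m') : SameType S S' m a b :=
  ⟨h.1, fun i => ⟨(h.2 i).1, fun n hn => (h.2 i).2 n (lt_of_lt_of_le hn hm)⟩⟩

theorem SameType.symm' (h : SameType S S' m a b) : SameType S' S m b a :=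
  ⟨fun i j => ⟨(h.1 i j).1.symm, (h.1 i j).2.1.symm, (h.1 i j).2.2.symm⟩,
    fun i => ⟨(h.2 i).1.symm, fun n hn => ((h.2 i).2 n hn).symm⟩⟩

theorem SameType.comp' (h : SameType S S' m a b) (g : κ → ι) :
    SameType S S' m (a ∘ g) (b ∘ g) :=
  ⟨fun i j => h.1 (g i) (g j), fun i => h.2 (g i)⟩

theorem SameType.extend (hS : Good S) (hS' : Good S') (h : SameType S S' m a b) (x : M) (y : N)
    (hxy : (∀ i, (x = a i ↔ y = b i) ∧ (S.lt x (a i) ↔ S'.lt y (b i)) ∧
      (S.lt (a i) x ↔ S'.lt (b i) y) ∧ (S.adj x (a i) ↔ S'.adj y (b i))) ∧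
      (S.P x ↔ S'.P y) ∧ ∀ n < m, (S.W n x ↔ S'.W n y)) :
    SameType S S' m (fun o : Option ι => o.elim x a) (fun o : Option ι => o.elim y b) := by
  refine ⟨?_, ?_⟩
  · intro i j
    cases i with
    | none =>
      cases j with
      | none =>
        refine ⟨Iff.intro (fun _ => rfl) (fun _ => rfl), ?_, ?_⟩
        · exact iff_of_false (hS.irr x) (hS'.irr y)
        · exact iff_of_false (hS.adj_irr x) (hS'.adj_irr y)
      | some j => exact ⟨(hxy.1 j).1, (hxy.1 j).2.1, (hxy.1 j).2.2.2⟩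
    | some i =>
      cases j with
      | none =>
        refine ⟨⟨fun e => ((hxy.1 i).1.1 e.symm).symm, fun e => ((hxy.1 i).1.2 e.symm).symm⟩,
          (hxy.1 i).2.2.1, ⟨fun e => ?_, fun e => ?_⟩⟩
        · exact hS'.adj_symm _ _ ((hxy.1 i).2.2.2.1 (hS.adj_symm _ _ e))
        · exact hS.adj_symm _ _ ((hxy.1 i).2.2.2.2 (hS'.adj_symm _ _ e))
      | some j => exact h.1 i j
  · intro i
    cases i with
    | none => exact hxy.2
    | some i => exact h.2 i

end

theorem term_var {β : Type} (t : LL.Term β) : ∃ i, t = FirstOrder.Language.Term.var i := by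
  cases t with
  | var i => exact ⟨i, rfl⟩
  | func f ts => exact Empty.elim f

theorem same_snoc {M N α : Type} {S : PG M} {S' : PG N} {m n : ℕ} (hS : Good S) (hS' : Good S')
    {v : α → M} {xs : Fin n → M} {v' : α → N} {xs' : Fin n → N}
    (h : SameType S S' m (Sum.elim v xs) (Sum.elim v' xs')) (x : M) (y : N)
    (hxy : (∀ i, (x = Sum.elim v xs i ↔ y = Sum.elim v' xs' i) ∧
      (S.lt x (Sum.elim v xs i) ↔ S'.lt y (Sum.elim v' xs' i)) ∧
      (S.lt (Sum.elim v xs i) x ↔ S'.lt (Sum.elim v' xs' i) y) ∧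
      (S.adj x (Sum.elim v xs i) ↔ S'.adj y (Sum.elim v' xs' i))) ∧
      (S.P x ↔ S'.P y) ∧ ∀ n < m, (S.W n x ↔ S'.W n y)) :
    SameType S S' m (Sum.elim v (Fin.snoc xs x : Fin (n + 1) → M))
      (Sum.elim v' (Fin.snoc xs' y : Fin (n + 1) → N)) := by
  have h1 := SameType.extend hS hS' h x y hxy
  let g : α ⊕ Fin (n + 1) → Option (α ⊕ Fin n) :=
    Sum.elim (fun i => some (Sum.inl i))
      (fun j => Fin.lastCases (motive := fun _ => Option (α ⊕ Fin n)) none
        (fun j => some (Sum.inr j)) j)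
  have h2 := SameType.comp' h1 g
  have e1 : (fun o : Option (α ⊕ Fin n) => o.elim x (Sum.elim v xs)) ∘ g =
      Sum.elim v (Fin.snoc xs x : Fin (n + 1) → M) := by
    funext i
    rcases i with i | j
    · rfl
    · refine Fin.lastCases ?_ (fun j => ?_) j
      · simp [g]
      · simp [g]
  have e2 : (fun o : Option (α ⊕ Fin n) => o.elim y (Sum.elim v' xs')) ∘ g =
      Sum.elim v' (Fin.snoc xs' y : Fin (n + 1) → N) := by
    funext i
    rcases i with i | j
    · rfl
    · refine Fin.lastCases ?_ (fun j => ?_) j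
      · simp [g]
      · simp [g]
  rw [e1, e2] at h2
  exact h2

theorem s_bf (hb : S_back) : S_bf := by
  intro M N S S' hS hS' α _ n φ
  induction φ with
  | falsum => exact ⟨0, fun _ _ _ _ _ => Iff.rfl⟩
  | equal t₁ t₂ =>
    obtain ⟨i, rfl⟩ := term_var t₁
    obtain ⟨j, rfl⟩ := term_var t₂
    exact ⟨0, fun v xs v' xs' h => (h.1 i j).1⟩
  | rel R ts =>
    cases R with
    | lt =>
      obtain ⟨i, hi⟩ := term_var (ts 0)
      obtain ⟨j, hj⟩ := term_var (ts 1)
      refine ⟨0, fun v xs v' xs' h => ?_⟩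
      have h1 := (h.1 i j).2.1
      change S.lt (@FirstOrder.Language.Term.realize LL M (toStr S) _ (Sum.elim v xs) (ts 0))
        (@FirstOrder.Language.Term.realize LL M (toStr S) _ (Sum.elim v xs) (ts 1)) ↔
        S'.lt (@FirstOrder.Language.Term.realize LL N (toStr S') _ (Sum.elim v' xs') (ts 0))
        (@FirstOrder.Language.Term.realize LL N (toStr S') _ (Sum.elim v' xs') (ts 1))
      rw [hi, hj]
      exact h1
    | adj =>
      obtain ⟨i, hi⟩ := term_var (ts 0)
      obtain ⟨j, hj⟩ := term_var (ts 1)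
      refine ⟨0, fun v xs v' xs' h => ?_⟩
      have h1 := (h.1 i j).2.2
      change S.adj (@FirstOrder.Language.Term.realize LL M (toStr S) _ (Sum.elim v xs) (ts 0))
        (@FirstOrder.Language.Term.realize LL M (toStr S) _ (Sum.elim v xs) (ts 1)) ↔
        S'.adj (@FirstOrder.Language.Term.realize LL N (toStr S') _ (Sum.elim v' xs') (ts 0))
        (@FirstOrder.Language.Term.realize LL N (toStr S') _ (Sum.elim v' xs') (ts 1))
      rw [hi, hj]
      exact h1
    | P =>
      obtain ⟨i, hi⟩ := term_var (ts 0)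
      refine ⟨0, fun v xs v' xs' h => ?_⟩
      have h1 := (h.2 i).1
      change S.P (@FirstOrder.Language.Term.realize LL M (toStr S) _ (Sum.elim v xs) (ts 0)) ↔
        S'.P (@FirstOrder.Language.Term.realize LL N (toStr S') _ (Sum.elim v' xs') (ts 0))
      rw [hi]
      exact h1
    | W k =>
      obtain ⟨i, hi⟩ := term_var (ts 0)
      refine ⟨k + 1, fun v xs v' xs' h => ?_⟩
      have h1 := (h.2 i).2 k (Nat.lt_succ_self k)
      change S.W k (@FirstOrder.Language.Term.realize LL M (toStr S) _ (Sum.elim v xs) (ts 0)) ↔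
        S'.W k (@FirstOrder.Language.Term.realize LL N (toStr S') _ (Sum.elim v' xs') (ts 0))
      rw [hi]
      exact h1
  | imp f₁ f₂ ih₁ ih₂ =>
    obtain ⟨m₁, h₁⟩ := ih₁
    obtain ⟨m₂, h₂⟩ := ih₂
    exact ⟨max m₁ m₂, fun v xs v' xs' h => imp_congr
      (h₁ v xs v' xs' (h.mono (le_max_left _ _))) (h₂ v xs v' xs' (h.mono (le_max_right _ _)))⟩
  | all f ih =>
    obtain ⟨m, h⟩ := ih
    refine ⟨m, fun v xs v' xs' hs => ⟨fun H y => ?_, fun H x => ?_⟩⟩
    · obtain ⟨x, hx⟩ := hb N M S' S hS' hS _ m _ _ hs.symm' y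
      have h3 := same_snoc hS' hS hs.symm' y x hx
      exact (h v (Fin.snoc xs x) v' (Fin.snoc xs' y) h3.symm').1 (H x)
    · obtain ⟨y, hy⟩ := hb M N S S' hS hS' _ m _ _ hs x
      have h3 := same_snoc hS hS' hs x y hy
      exact (h v (Fin.snoc xs x) v' (Fin.snoc xs' y) h3).2 (H y)

theorem s_ee (hbf : S_bf) : S_ee := by
  intro M N S S' hS hS' φ
  obtain ⟨m, hm⟩ := hbf M N S S' hS hS' Empty 0 φ
  refine hm default default default default ⟨?_, ?_⟩
  · rintro (i | i)
    · exact Empty.elim i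
    · exact Fin.elim0 i
  · rintro (i | i)
    · exact Empty.elim i
    · exact Fin.elim0 i

theorem formula_iff (hbf : S_bf) {M N : Type} {S : PG M} {S' : PG N} (hS : Good S)
    (hS' : Good S') (f : M → N) (hf : PGEmb S S' f) {n : ℕ} (φ : LL.Formula (Fin n))
    (x : Fin n → M) :
    @FirstOrder.Language.Formula.Realize LL N (toStr S') (Fin n) φ (f ∘ x) ↔
      @FirstOrder.Language.Formula.Realize LL M (toStr S) (Fin n) φ x := by
  obtain ⟨m, hm⟩ := hbf M N S S' hS hS' (Fin n) 0 φ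
  have hst : SameType S S' m (Sum.elim x (default : Fin 0 → M))
      (Sum.elim (f ∘ x) (default : Fin 0 → N)) := by
    refine ⟨?_, ?_⟩
    · rintro (i | i)
      · rintro (j | j)
        · exact ⟨⟨fun e => congrArg f e, fun e => hf.inj e⟩, hf.lt _ _, hf.adj _ _⟩
        · exact Fin.elim0 j
      · exact Fin.elim0 i
    · rintro (i | i)
      · exact ⟨hf.P _, fun k _ => hf.W k _⟩
      · exact Fin.elim0 i
  exact (hm x default (f ∘ x) default hst).symm

theorem s_el (hbf : S_bf) : S_el := by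
  intro S S' hS hS' f hf
  refine ⟨@FirstOrder.Language.ElementaryEmbedding.mk LL ℕ ℕ (toStr S) (toStr S') f ?_⟩
  intro n φ x
  exact formula_iff hbf hS hS' f hf φ x

end R624TB
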