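import Mathlib

/-!
# A complete theory with three bi-embeddability classes of countable models and uncountably many
countable models (MP_683aef_lc): definitions
-/

set_option autoImplicit false

namespace R624TB

open FirstOrder Set Cardinal

/-! ### The general notions -/

/-- Two `L`-structures on `ℕ` are isomorphic. -/
def Iso {L : FirstOrder.Language.{0, 0}} (A B : L.Structure ℕ) : Prop :=
  Nonempty (@FirstOrder.Language.Equiv L ℕ ℕ A B)

/-- The structure `A` on `ℕ` elementarily embeds into the structure `B` on `ℕ`. -/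
def ElEmb {L : FirstOrder.Language.{0, 0}} (A B : L.Structure ℕ) : Prop :=
  Nonempty (@FirstOrder.Language.ElementaryEmbedding L ℕ ℕ A B)

/-- Mutual elementary embeddability. -/
def Similar {L : FirstOrder.Language.{0, 0}} (A B : L.Structure ℕ) : Prop :=
  ElEmb A B ∧ ElEmb B A

/-- The models of `T` with universe `ℕ`. -/
def CMod {L : FirstOrder.Language.{0, 0}} (T : L.Theory) : Type :=
  {A : L.Structure ℕ // @FirstOrder.Language.Theory.Model L ℕ A T}

/-- `I(T, ω)`: the number of isomorphism classes of models with universe `ℕ`. -/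
noncomputable def numIso {L : FirstOrder.Language.{0, 0}} (T : L.Theory) : Cardinal.{0} :=
  #(Quot fun A B : CMod T => Iso A.1 B.1)

/-- `B_T(ω)`: the number of similarity classes of models with universe `ℕ`. -/
noncomputable def numSim {L : FirstOrder.Language.{0, 0}} (T : L.Theory) : Cardinal.{0} :=
  #(Quot fun A B : CMod T => Similar A.1 B.1)

/-! ### The language -/

/-- relation symbols: a strict order, a graph, a unary predicate and levels -/
inductive Rel : ℕ → Type
  | lt : Rel 2
  | adj : Rel 2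
  | P : Rel 1
  | W (n : ℕ) : Rel 1

/-- the language -/
def LL : FirstOrder.Language.{0, 0} := ⟨fun _ => Empty, Rel⟩

/-- the data of a structure -/
@[ext] structure PG (M : Type) where
  lt : M → M → Prop
  adj : M → M → Prop
  P : M → Prop
  W : ℕ → M → Prop

/-- the first-order structure of the data -/
def toStr {M : Type} (S : PG M) : LL.Structure M where
  funMap := fun {_} f _ => Empty.elim f
  RelMap := fun {_} r => match r with
    | Rel.lt => fun v => S.lt (v 0) (v 1)
    | Rel.adj => fun v => S.adj (v 0) (v 1)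
    | Rel.P => fun v => S.P (v 0)
    | Rel.W n => fun v => S.W n (v 0)

/-- the data of a first-order structure -/
def ofStr {M : Type} (A : LL.Structure M) : PG M where
  lt := fun x y => A.RelMap (n := 2) Rel.lt ![x, y]
  adj := fun x y => A.RelMap (n := 2) Rel.adj ![x, y]
  P := fun x => A.RelMap (n := 1) Rel.P ![x]
  W := fun n x => A.RelMap (n := 1) (Rel.W n) ![x]

lemma toStr_ofStr {M : Type} (A : LL.Structure M) : toStr (ofStr A) = A := by
  apply FirstOrder.Language.Structure.ext
  · funext n f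
    exact Empty.elim f
  · funext n r
    cases r with
    | lt =>
      funext v
      change A.RelMap (n := 2) Rel.lt ![v 0, v 1] = A.RelMap (n := 2) Rel.lt v
      congr 1
      funext i
      fin_cases i <;> rfl
    | adj =>
      funext v
      change A.RelMap (n := 2) Rel.adj ![v 0, v 1] = A.RelMap (n := 2) Rel.adj v
      congr 1
      funext i
      fin_cases i <;> rfl
    | P =>
      funext v
      change A.RelMap (n := 1) Rel.P ![v 0] = A.RelMap (n := 1) Rel.P v
      congr 1
      funext i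
      fin_cases i <;> rfl
    | W k =>
      funext v
      change A.RelMap (n := 1) (Rel.W k) ![v 0] = A.RelMap (n := 1) (Rel.W k) v
      congr 1
      funext i
      fin_cases i <;> rfl

lemma ofStr_toStr {M : Type} (S : PG M) : ofStr (toStr S) = S := rfl

/-- satisfaction of a sentence -/
def Sat {M : Type} (A : LL.Structure M) (φ : LL.Sentence) : Prop :=
  @FirstOrder.Language.Sentence.Realize LL M A φ

/-! ### Good structures -/

/-- valid data `A` (predecessors), `B` (successors), `C` (neighbours) over the finite set `F` -/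
structure Valid {M : Type} (S : PG M) (F A B C : Finset M) : Prop where
  hA : A ⊆ F
  hB : B ⊆ F
  hC : C ⊆ F
  down : ∀ a ∈ A, ∀ z ∈ F, S.lt z a → z ∈ A
  up : ∀ b ∈ B, ∀ z ∈ F, S.lt b z → z ∈ B
  lt : ∀ a ∈ A, ∀ b ∈ B, S.lt a b

/-- the new element `y` realizes the data over `F` -/
structure Real {M : Type} (S : PG M) (F A B C : Finset M) (y : M) : Prop where
  new : y ∉ F
  below : ∀ z ∈ F, (S.lt z y ↔ z ∈ A)
  above : ∀ z ∈ F, (S.lt y z ↔ z ∈ B)
  adj : ∀ z ∈ F, (S.adj y z ↔ z ∈ C)

/-- the generic structures -/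
structure Good {M : Type} (S : PG M) : Prop where
  irr : ∀ x, ¬ S.lt x x
  trans : ∀ x y z, S.lt x y → S.lt y z → S.lt x z
  adj_symm : ∀ x y, S.adj x y → S.adj y x
  adj_irr : ∀ x, ¬ S.adj x x
  P_up : ∀ x y, S.lt x y → S.P x → S.P y
  W_down : ∀ n x y, S.lt x y → S.W n y → S.W n x
  W_mono : ∀ n x, S.W n x → S.W (n + 1) x
  ep1 : ∀ (F A B C : Finset M) (n : ℕ) (p : Bool), Valid S F A B C →
    (∀ a ∈ A, S.W n a) → (∀ b ∈ B, ∀ m < n, ¬ S.W m b) →
    (∀ a ∈ A, S.P a → p = true) → (∀ b ∈ B, p = true → S.P b) →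
    ∃ y, Real S F A B C y ∧ S.W n y ∧ (∀ m < n, ¬ S.W m y) ∧ (S.P y ↔ p = true)
  ep2 : ∀ (F A B C : Finset M) (p : Bool), Valid S F A B C →
    (∀ a ∈ A, S.P a → p = true) → (∀ b ∈ B, p = true → S.P b) →
    ∃ y, Real S F A B C y ∧ (S.P y ↔ p = true)

/-- `x` is of infinite level -/
def Inf {M : Type} (S : PG M) (x : M) : Prop := ∀ n, ¬ S.W n x

/-- `x` is minimal among the elements of infinite level -/
def MinInf {M : Type} (S : PG M) (x : M) : Prop := Inf S x ∧ ∀ z, Inf S z → ¬ S.lt z x

/-- the tuples `a`, `b` have the same atomic type, with the levels less than `m` only -/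
def SameType {M N ι : Type} (S : PG M) (S' : PG N) (m : ℕ) (a : ι → M) (b : ι → N) : Prop :=
  (∀ i j, (a i = a j ↔ b i = b j) ∧ (S.lt (a i) (a j) ↔ S'.lt (b i) (b j)) ∧
    (S.adj (a i) (a j) ↔ S'.adj (b i) (b j))) ∧
  ∀ i, (S.P (a i) ↔ S'.P (b i)) ∧ ∀ n < m, (S.W n (a i) ↔ S'.W n (b i))

/-- `f` is an embedding -/
structure PGEmb {M N : Type} (S : PG M) (S' : PG N) (f : M → N) : Prop where
  inj : Function.Injective f
  lt : ∀ x y, S.lt x y ↔ S'.lt (f x) (f y)
  adj : ∀ x y, S.adj x y ↔ S'.adj (f x) (f y)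
  P : ∀ x, S.P x ↔ S'.P (f x)
  W : ∀ n x, S.W n x ↔ S'.W n (f x)

/-- the graph of a set `A` of natural numbers: a clique with `n + 2` vertices for each `n ∈ A`,
and isolated vertices -/
def HA (A : Set ℕ) (x y : ℕ) : Prop :=
  ∃ n ∈ A, ∃ i j, i ≠ j ∧ i ≤ n + 1 ∧ j ≤ n + 1 ∧ x = Nat.pair n i ∧ y = Nat.pair n j

/-! ### The pieces -/

/-- (back) one step of the back-and-forth -/
def S_back : Prop := ∀ (M N : Type) (S : PG M) (S' : PG N), Good S → Good S' →
  ∀ (ι : Type) [Finite ι] (m : ℕ) (a : ι → M) (b : ι → N), SameType S S' m a b →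
  ∀ x : M, ∃ y : N, (∀ i, (x = a i ↔ y = b i) ∧ (S.lt x (a i) ↔ S'.lt y (b i)) ∧
    (S.lt (a i) x ↔ S'.lt (b i) y) ∧ (S.adj x (a i) ↔ S'.adj y (b i))) ∧
    (S.P x ↔ S'.P y) ∧ ∀ n < m, (S.W n x ↔ S'.W n y)

/-- (bf) formulas are preserved by tuples of the same type -/
def S_bf : Prop := ∀ (M N : Type) (S : PG M) (S' : PG N), Good S → Good S' →
  ∀ (α : Type) [Finite α] (n : ℕ) (φ : LL.BoundedFormula α n), ∃ m : ℕ,
  ∀ (v : α → M) (xs : Fin n → M) (v' : α → N) (xs' : Fin n → N),
    SameType S S' m (Sum.elim v xs) (Sum.elim v' xs') →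
    (@FirstOrder.Language.BoundedFormula.Realize LL M (toStr S) α n φ v xs ↔
      @FirstOrder.Language.BoundedFormula.Realize LL N (toStr S') α n φ v' xs')

/-- (ee) good structures are elementarily equivalent -/
def S_ee : Prop := ∀ (M N : Type) (S : PG M) (S' : PG N), Good S → Good S' →
  ∀ φ : LL.Sentence, Sat (toStr S) φ ↔ Sat (toStr S') φ

/-- (el) embeddings of good structures are elementary -/
def S_el : Prop := ∀ (S S' : PG ℕ), Good S → Good S' → ∀ f : ℕ → ℕ, PGEmb S S' f →
  ElEmb (toStr S) (toStr S')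

/-- (ax) a structure satisfying the sentences that are true in a good structure is good -/
def S_ax : Prop := ∀ (S : PG ℕ), Good S → ∀ S' : PG ℕ,
  (∀ φ : LL.Sentence, Sat (toStr S) φ → Sat (toStr S') φ) → Good S'

/-- (emb) embeddings -/
def S_emb : Prop := ∀ (S S' : PG ℕ), Good S → Good S' → ∀ D : Finset ℕ,
  (∀ d ∈ D, Inf S' d) → (∀ d ∈ D, ∀ d' ∈ D, d = d') →
  (∀ d ∈ D, S'.P d → ∀ x, Inf S x → S.P x) → ((∃ x, Inf S x) → D.Nonempty) →
  ∃ f : ℕ → ℕ, PGEmb S S' f

/-- (con) construction of good structures; `H` is the graph on the minimal elements of infinite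
level -/
def S_con : Prop := ∀ (H : ℕ → ℕ → Prop), (∀ x y, H x y → H y x) → (∀ x, ¬ H x x) →
  ∀ p : Bool, ∃ (S : PG ℕ) (e : ℕ → ℕ), Good S ∧ Function.Injective e ∧
    (∀ x, MinInf S x ↔ ∃ i, x = e i) ∧ (∀ i j, S.adj (e i) (e j) ↔ H i j) ∧
    (∀ i, S.P (e i) ↔ p = true) ∧ (p = true → ∀ x, Inf S x → S.P x)

/-- (pri) construction of a good structure without elements of infinite level -/
def S_pri : Prop := ∃ S : PG ℕ, Good S ∧ ∀ x, ¬ Inf S x

/-- (deg) degrees determine `A` -/
def S_deg : Prop := ∀ (A : Set ℕ) (n : ℕ), n ∈ A ↔ ∃ x, {y | HA A x y}.ncard = n + 1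

/-- (inv) isomorphic good structures have isomorphic graphs on the minimal elements -/
def S_inv : Prop := ∀ (A B : Set ℕ) (S S' : PG ℕ) (e e' : ℕ → ℕ), Good S → Good S' →
  Function.Injective e → Function.Injective e' →
  (∀ x, MinInf S x ↔ ∃ i, x = e i) → (∀ x, MinInf S' x ↔ ∃ i, x = e' i) →
  (∀ i j, S.adj (e i) (e j) ↔ HA A i j) → (∀ i j, S'.adj (e' i) (e' j) ↔ HA B i j) →
  Iso (toStr S) (toStr S') → A = B

end R624TB
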