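import Mathlib
import Pool.Agent.R624.TB.Defs

/-!
# Pieces (con) and (pri) of MP_683aef_lc: construction of generic structures by recursion
-/

set_option autoImplicit false

namespace R624TB

open Set

namespace Con1

/-- the data of a structure with levels -/
structure PL where
  lt : ℕ → ℕ → Prop
  adj : ℕ → ℕ → Prop
  lev : ℕ → ℕ∞
  P : ℕ → Prop

/-- adding the element `m` -/
def step (m : ℕ) (S : PL) (A B C : Finset ℕ) (n : ℕ∞) (pt : Prop) : PL where
  lt x y := (x < m ∧ y < m ∧ S.lt x y) ∨ (x < m ∧ y = m ∧ ∃ a ∈ A, x = a ∨ S.lt x a) ∨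
    (x = m ∧ y < m ∧ ∃ b ∈ B, y = b ∨ S.lt b y)
  adj x y := (x < m ∧ y < m ∧ S.adj x y) ∨ (x < m ∧ y = m ∧ x ∈ C) ∨ (x = m ∧ y < m ∧ y ∈ C)
  lev x := if x = m then n else S.lev x
  P x := if x = m then pt else S.P x

/-- the basic invariants -/
structure Inv (m : ℕ) (S : PL) : Prop where
  lts : ∀ x y, S.lt x y → x < m ∧ y < m
  ads : ∀ x y, S.adj x y → x < m ∧ y < m
  irr : ∀ x, ¬ S.lt x x
  trans : ∀ x y z, S.lt x y → S.lt y z → S.lt x z
  adj_symm : ∀ x y, S.adj x y → S.adj y x
  adj_irr : ∀ x, ¬ S.adj x x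
  P_up : ∀ x y, S.lt x y → S.P x → S.P y
  lev_mono : ∀ x y, S.lt x y → S.lev x ≤ S.lev y

/-- the conditions for the new element -/
structure Adm0 (m : ℕ) (S : PL) (A B : Finset ℕ) (n : ℕ∞) (pt : Prop) : Prop where
  hA : ∀ a ∈ A, a < m
  hB : ∀ b ∈ B, b < m
  hlt : ∀ a ∈ A, ∀ b ∈ B, S.lt a b
  lA : ∀ a ∈ A, S.lev a ≤ n
  lB : ∀ b ∈ B, n ≤ S.lev b
  pA : ∀ a ∈ A, S.P a → pt
  pB : ∀ b ∈ B, pt → S.P b

variable {m : ℕ} {S : PL} {A B C : Finset ℕ} {n : ℕ∞} {pt : Prop}

lemma step_lev_m : (step m S A B C n pt).lev m = n := by simp [step]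

lemma step_P_m : (step m S A B C n pt).P m ↔ pt := by simp [step]

lemma step_lev {x : ℕ} (hx : x < m) : (step m S A B C n pt).lev x = S.lev x := by
  simp [step, hx.ne]

lemma step_P {x : ℕ} (hx : x < m) : (step m S A B C n pt).P x ↔ S.P x := by
  simp [step, hx.ne]

lemma step_lt {x y : ℕ} (hx : x < m) (hy : y < m) :
    (step m S A B C n pt).lt x y ↔ S.lt x y := by
  simp [step, hx, hy, hx.ne, hy.ne]

lemma step_adj {x y : ℕ} (hx : x < m) (hy : y < m) :
    (step m S A B C n pt).adj x y ↔ S.adj x y := by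
  simp [step, hx, hy, hx.ne, hy.ne]

lemma step_lt_m {x : ℕ} (hx : x < m) :
    (step m S A B C n pt).lt x m ↔ ∃ a ∈ A, x = a ∨ S.lt x a := by
  simp [step, hx, hx.ne]

lemma step_m_lt {x : ℕ} (hx : x < m) :
    (step m S A B C n pt).lt m x ↔ ∃ b ∈ B, x = b ∨ S.lt b x := by
  simp [step, hx, hx.ne]

lemma step_m_adj {x : ℕ} (hx : x < m) : (step m S A B C n pt).adj m x ↔ x ∈ C := by
  simp [step, hx, hx.ne]

lemma step_adj_m {x : ℕ} (hx : x < m) : (step m S A B C n pt).adj x m ↔ x ∈ C := by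
  simp [step, hx, hx.ne]

lemma step_inv (hI : Inv m S) (h : Adm0 m S A B n pt) : Inv (m + 1) (step m S A B C n pt) := by
  have hlts : ∀ x y, (step m S A B C n pt).lt x y → x < m + 1 ∧ y < m + 1 := by
    intro x y hxy
    rcases hxy with ⟨h1, h2, _⟩ | ⟨h1, h2, _⟩ | ⟨h1, h2, _⟩ <;> omega
  have hle : ∀ x, x < m + 1 → x < m ∨ x = m := fun x hx => by omega
  have hirr : ¬ (step m S A B C n pt).lt m m := by simp [step]
  refine ⟨hlts, ?_, ?_, ?_, ?_, ?_, ?_, ?_⟩
  · intro x y hxy
    rcases hxy with ⟨h1, h2, _⟩ | ⟨h1, h2, _⟩ | ⟨h1, h2, _⟩ <;> omega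
  · intro x hx
    rcases hle x (hlts x x hx).1 with h1 | rfl
    · rw [step_lt h1 h1] at hx
      exact hI.irr x hx
    · exact hirr hx
  · intro x y z hxy hyz
    have bx := hle x (hlts x y hxy).1
    have bY := hle y (hlts x y hxy).2
    have bz := hle z (hlts y z hyz).2
    rcases bY with hy | rfl
    · rcases bx with hx | rfl
      · rcases bz with hz | rfl
        · rw [step_lt hx hy] at hxy
          rw [step_lt hy hz] at hyz
          rw [step_lt hx hz]
          exact hI.trans x y z hxy hyz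
        · rw [step_lt hx hy] at hxy
          rw [step_lt_m hy] at hyz
          rw [step_lt_m hx]
          obtain ⟨a, ha, h1⟩ := hyz
          refine ⟨a, ha, Or.inr ?_⟩
          rcases h1 with rfl | h1
          · exact hxy
          · exact hI.trans x y a hxy h1
      · rw [step_m_lt hy] at hxy
        obtain ⟨b, hb, h1⟩ := hxy
        rcases bz with hz | rfl
        · rw [step_lt hy hz] at hyz
          rw [step_m_lt hz]
          refine ⟨b, hb, Or.inr ?_⟩
          rcases h1 with rfl | h1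
          · exact hyz
          · exact hI.trans b y z h1 hyz
        · exfalso
          rw [step_lt_m hy] at hyz
          obtain ⟨a, ha, h2⟩ := hyz
          have h3 := h.hlt a ha b hb
          have h4 : S.lt a y := by
            rcases h1 with rfl | h1
            · exact h3
            · exact hI.trans a b y h3 h1
          rcases h2 with rfl | h2
          · exact hI.irr _ h4
          · exact hI.irr _ (hI.trans a y a h4 h2)
    · rcases bx with hx | rfl
      · rcases bz with hz | rfl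
        · rw [step_lt_m hx] at hxy
          rw [step_m_lt hz] at hyz
          rw [step_lt hx hz]
          obtain ⟨a, ha, h1⟩ := hxy
          obtain ⟨b, hb, h2⟩ := hyz
          have h3 := h.hlt a ha b hb
          have h4 : S.lt x b := by
            rcases h1 with rfl | h1
            · exact h3
            · exact hI.trans x a b h1 h3
          rcases h2 with rfl | h2
          · exact h4
          · exact hI.trans x b z h4 h2
        · exact absurd hyz hirr
      · exact absurd hxy hirr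
  · intro x y hxy
    rcases hxy with ⟨h1, h2, h3⟩ | ⟨h1, h2, h3⟩ | ⟨h1, h2, h3⟩
    · exact Or.inl ⟨h2, h1, hI.adj_symm x y h3⟩
    · exact Or.inr (Or.inr ⟨h2, h1, h3⟩)
    · exact Or.inr (Or.inl ⟨h2, h1, h3⟩)
  · intro x hx
    rcases hx with ⟨h1, h2, h3⟩ | ⟨h1, h2, h3⟩ | ⟨h1, h2, h3⟩
    · exact hI.adj_irr x h3
    · omega
    · omega
  · intro x y hxy hx
    have bx := hle x (hlts x y hxy).1
    have bY := hle y (hlts x y hxy).2
    rcases bx with hx' | rfl
    · rw [step_P hx'] at hx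
      rcases bY with hy | rfl
      · rw [step_lt hx' hy] at hxy
        rw [step_P hy]
        exact hI.P_up x y hxy hx
      · rw [step_lt_m hx'] at hxy
        rw [step_P_m]
        obtain ⟨a, ha, h1⟩ := hxy
        apply h.pA a ha
        rcases h1 with rfl | h1
        · exact hx
        · exact hI.P_up x a h1 hx
    · rw [step_P_m] at hx
      rcases bY with hy | rfl
      · rw [step_m_lt hy] at hxy
        rw [step_P hy]
        obtain ⟨b, hb, h1⟩ := hxy
        have h2 := h.pB b hb hx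
        rcases h1 with rfl | h1
        · exact h2
        · exact hI.P_up b y h1 h2
      · exact absurd hxy hirr
  · intro x y hxy
    have bx := hle x (hlts x y hxy).1
    have bY := hle y (hlts x y hxy).2
    rcases bx with hx' | rfl
    · rw [step_lev hx']
      rcases bY with hy | rfl
      · rw [step_lt hx' hy] at hxy
        rw [step_lev hy]
        exact hI.lev_mono x y hxy
      · rw [step_lt_m hx'] at hxy
        rw [step_lev_m]
        obtain ⟨a, ha, h1⟩ := hxy
        refine le_trans ?_ (h.lA a ha)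
        rcases h1 with rfl | h1
        · exact le_rfl
        · exact hI.lev_mono x a h1
    · rw [step_lev_m]
      rcases bY with hy | rfl
      · rw [step_m_lt hy] at hxy
        rw [step_lev hy]
        obtain ⟨b, hb, h1⟩ := hxy
        refine le_trans (h.lB b hb) ?_
        rcases h1 with rfl | h1
        · exact le_rfl
        · exact hI.lev_mono b y h1
      · exact absurd hxy hirr

/-- the tasks -/
structure Task where
  F : Finset ℕ
  A : Finset ℕ
  B : Finset ℕ
  C : Finset ℕ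
  n : ℕ∞
  p : Bool

instance : Countable Task := by
  have h : Function.Injective (fun t : Task => (t.F, t.A, t.B, t.C, t.n, t.p)) := by
    rintro ⟨a, b, c, d, e, f⟩ ⟨a', b', c', d', e', f'⟩ h
    simp only [Prod.mk.injEq] at h
    obtain ⟨h1, h2, h3, h4, h5, h6⟩ := h
    subst h1; subst h2; subst h3; subst h4; subst h5; subst h6
    rfl
  have : Countable ℕ∞ := inferInstanceAs (Countable (Option ℕ))
  exact h.countable

instance : Nonempty Task := ⟨⟨∅, ∅, ∅, ∅, 0, false⟩⟩

lemma exists_task : ∃ g : ℕ → Task, ∀ t M, ∃ k, M ≤ k ∧ g k = t := by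
  obtain ⟨g, hg⟩ := exists_surjective_nat Task
  refine ⟨fun k => g k.unpair.1, fun t M => ?_⟩
  obtain ⟨i, hi⟩ := hg t
  refine ⟨Nat.pair i M, Nat.right_le_pair i M, ?_⟩
  simp [hi]

noncomputable def task : ℕ → Task := exists_task.choose

lemma task_spec : ∀ t M, ∃ k, M ≤ k ∧ task k = t := exists_task.choose_spec

/-- admissible tasks -/
structure Adm (m : ℕ) (S : PL) (t : Task) : Prop extends
    Adm0 m S t.A t.B t.n (t.p = true) where
  hF : ∀ x ∈ t.F, x < m
  AF : t.A ⊆ t.F
  BF : t.B ⊆ t.F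
  CF : t.C ⊆ t.F
  down : ∀ a ∈ t.A, ∀ z ∈ t.F, S.lt z a → z ∈ t.A
  up : ∀ b ∈ t.B, ∀ z ∈ t.F, S.lt b z → z ∈ t.B
  top : t.n = ⊤ → ∃ a ∈ t.A, S.lev a = ⊤

open Classical in
/-- the next structure -/
noncomputable def next (H : ℕ → ℕ → Prop) (p : Bool) (Λ : ℕ∞) (m : ℕ) (S : PL) : PL :=
  if m % 2 = 0 then
    step m S ∅ ∅ ((Finset.range m).filter fun z => ∃ j, z = 2 * j ∧ H (m / 2) j) Λ (p = true)
  else if Adm m S (task (m / 2)) then
    step m S (task (m / 2)).A (task (m / 2)).B (task (m / 2)).C (task (m / 2)).n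
      ((task (m / 2)).p = true)
  else step m S ∅ ∅ ∅ 0 False

/-- the sequence of structures -/
noncomputable def sq (H : ℕ → ℕ → Prop) (p : Bool) (Λ : ℕ∞) : ℕ → PL
  | 0 => ⟨fun _ _ => False, fun _ _ => False, fun _ => 0, fun _ => False⟩
  | m + 1 => next H p Λ m (sq H p Λ m)

/-- all invariants -/
structure Inv2 (H : ℕ → ℕ → Prop) (p : Bool) (Λ : ℕ∞) (m : ℕ) (S : PL) : Prop extends
    Inv m S where
  blev : ∀ i, 2 * i < m → S.lev (2 * i) = Λ
  bP : ∀ i, 2 * i < m → (S.P (2 * i) ↔ p = true)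
  bH : ∀ i j, 2 * i < m → 2 * j < m → (S.adj (2 * i) (2 * j) ↔ H i j)
  bmin : ∀ i z, S.lt z (2 * i) → S.lev z ≠ ⊤
  oinf : ∀ x, x < m → S.lev x = ⊤ → x % 2 = 1 → ∃ z, S.lev z = ⊤ ∧ S.lt z x
  fin : Λ ≠ ⊤ → ∀ x, x < m → S.lev x ≠ ⊤
  pinf : p = true → ∀ x, x < m → S.lev x = ⊤ → S.P x

lemma adm0_empty (m : ℕ) (S : PL) (n : ℕ∞) (pt : Prop) : Adm0 m S ∅ ∅ n pt :=
  ⟨by simp, by simp, by simp, by simp, by simp, by simp, by simp⟩

/-- the generic step keeps the invariants -/
lemma gen_inv {H : ℕ → ℕ → Prop} {p : Bool} {Λ : ℕ∞} (hI : Inv2 H p Λ m S) (hm : m % 2 = 1)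
    (h : Adm0 m S A B n pt) (htop : n = ⊤ → ∃ a ∈ A, S.lev a = ⊤) :
    Inv2 H p Λ (m + 1) (step m S A B C n pt) := by
  have hJ := step_inv (C := C) hI.toInv h
  refine ⟨hJ, ?_, ?_, ?_, ?_, ?_, ?_, ?_⟩
  · intro i hi
    rw [step_lev (by omega)]
    exact hI.blev i (by omega)
  · intro i hi
    rw [step_P (by omega)]
    exact hI.bP i (by omega)
  · intro i j hi hj
    rw [step_adj (by omega) (by omega)]
    exact hI.bH i j (by omega) (by omega)
  · intro i z hz
    have hb := hJ.lts _ _ hz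
    have h2i : 2 * i < m := by omega
    rcases (show z < m ∨ z = m by omega) with hz' | rfl
    · rw [step_lt hz' h2i] at hz
      rw [step_lev hz']
      exact hI.bmin i z hz
    · rw [step_lev_m]
      intro hn
      obtain ⟨a, ha, ha2⟩ := htop hn
      rw [step_m_lt h2i] at hz
      obtain ⟨b, hb1, hb2⟩ := hz
      have h3 := h.hlt a ha b hb1
      have h4 : S.lt a (2 * i) := by
        rcases hb2 with hb2 | hb2
        · rw [hb2]; exact h3
        · exact hI.trans a b _ h3 hb2
      exact hI.bmin i a h4 ha2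
  · intro x hx hx2 hx3
    rcases (show x < m ∨ x = m by omega) with hx' | rfl
    · rw [step_lev hx'] at hx2
      obtain ⟨z, hz1, hz2⟩ := hI.oinf x hx' hx2 hx3
      have hz3 := (hI.lts z x hz2).1
      exact ⟨z, by rw [step_lev hz3]; exact hz1, by rw [step_lt hz3 hx']; exact hz2⟩
    · rw [step_lev_m] at hx2
      obtain ⟨a, ha, ha2⟩ := htop hx2
      have ha3 := h.hA a ha
      exact ⟨a, by rw [step_lev ha3]; exact ha2,
        by rw [step_lt_m ha3]; exact ⟨a, ha, Or.inl rfl⟩⟩
  · intro hΛ x hx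
    rcases (show x < m ∨ x = m by omega) with hx' | rfl
    · rw [step_lev hx']
      exact hI.fin hΛ x hx'
    · rw [step_lev_m]
      intro hn
      obtain ⟨a, ha, ha2⟩ := htop hn
      exact hI.fin hΛ a (h.hA a ha) ha2
  · intro hp x hx hx2
    rcases (show x < m ∨ x = m by omega) with hx' | rfl
    · rw [step_lev hx'] at hx2
      rw [step_P hx']
      exact hI.pinf hp x hx' hx2
    · rw [step_lev_m] at hx2
      rw [step_P_m]
      obtain ⟨a, ha, ha2⟩ := htop hx2
      exact h.pA a ha (hI.pinf hp a (h.hA a ha) ha2)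

/-- the base step keeps the invariants -/
lemma base_inv {H : ℕ → ℕ → Prop} (hs : ∀ x y, H x y → H y x) (hir : ∀ x, ¬ H x x) {p : Bool}
    {Λ : ℕ∞} (hI : Inv2 H p Λ m S) (hm : m % 2 = 0) (hC : ∀ j, 2 * j < m →
      (2 * j ∈ C ↔ H (m / 2) j)) :
    Inv2 H p Λ (m + 1) (step m S ∅ ∅ C Λ (p = true)) := by
  have hJ := step_inv (C := C) hI.toInv (adm0_empty m S Λ (p = true))
  have hm2 : m = 2 * (m / 2) := by omega
  refine ⟨hJ, ?_, ?_, ?_, ?_, ?_, ?_, ?_⟩
  · intro i hi
    rcases (show 2 * i < m ∨ 2 * i = m by omega) with hx' | hx'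
    · rw [step_lev hx']
      exact hI.blev i hx'
    · rw [hx', step_lev_m]
  · intro i hi
    rcases (show 2 * i < m ∨ 2 * i = m by omega) with hx' | hx'
    · rw [step_P hx']
      exact hI.bP i hx'
    · rw [hx', step_P_m]
  · intro i j hi hj
    rcases (show 2 * i < m ∨ 2 * i = m by omega) with hx | hx
    · rcases (show 2 * j < m ∨ 2 * j = m by omega) with hy | hy
      · rw [step_adj hx hy]
        exact hI.bH i j hx hy
      · have hjj : j = m / 2 := by omega
        rw [hy, step_adj_m hx, hC i hx, ← hjj]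
        exact ⟨hs _ _, hs _ _⟩
    · have hii : i = m / 2 := by omega
      rcases (show 2 * j < m ∨ 2 * j = m by omega) with hy | hy
      · rw [hx, step_m_adj hy, hC j hy, ← hii]
      · have hij : i = j := by omega
        subst hij
        constructor
        · intro h
          exact absurd h (hJ.adj_irr _)
        · intro h
          exact absurd h (hir _)
  · intro i z hz
    have hb := hJ.lts _ _ hz
    rcases hz with ⟨h1, h2, h3⟩ | ⟨h1, h2, h3⟩ | ⟨h1, h2, h3⟩
    · rw [step_lev h1]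
      exact hI.bmin i z h3
    · obtain ⟨a, ha, _⟩ := h3
      exact absurd ha (Finset.notMem_empty a)
    · obtain ⟨a, ha, _⟩ := h3
      exact absurd ha (Finset.notMem_empty a)
  · intro x hx hx2 hx3
    have hx' : x < m := by omega
    rw [step_lev hx'] at hx2
    obtain ⟨z, hz1, hz2⟩ := hI.oinf x hx' hx2 hx3
    have hz3 := (hI.lts z x hz2).1
    exact ⟨z, by rw [step_lev hz3]; exact hz1, by rw [step_lt hz3 hx']; exact hz2⟩
  · intro hΛ x hx
    rcases (show x < m ∨ x = m by omega) with hx' | rfl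
    · rw [step_lev hx']
      exact hI.fin hΛ x hx'
    · rw [step_lev_m]
      exact hΛ
  · intro hp x hx hx2
    rcases (show x < m ∨ x = m by omega) with hx' | rfl
    · rw [step_lev hx'] at hx2
      rw [step_P hx']
      exact hI.pinf hp x hx' hx2
    · rw [step_P_m]
      exact hp

section final

variable {H : ℕ → ℕ → Prop} {p : Bool} {Λ : ℕ∞}

lemma sq_inv (hs : ∀ x y, H x y → H y x) (hir : ∀ x, ¬ H x x) (m : ℕ) :
    Inv2 H p Λ m (sq H p Λ m) := by
  induction m with
  | zero =>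
    refine ⟨⟨?_, ?_, ?_, ?_, ?_, ?_, ?_, ?_⟩, ?_, ?_, ?_, ?_, ?_, ?_, ?_⟩
    all_goals simp [sq]
  | succ m ih =>
    show Inv2 H p Λ (m + 1) (next H p Λ m (sq H p Λ m))
    unfold next
    split_ifs with h1 h2
    · apply base_inv hs hir ih h1
      intro j hj
      classical
      rw [Finset.mem_filter, Finset.mem_range]
      constructor
      · rintro ⟨_, j', hj', h3⟩
        have : j = j' := by omega
        rw [this]; exact h3
      · intro h3
        exact ⟨hj, j, rfl, h3⟩
    · exact gen_inv ih (by omega) h2.toAdm0 h2.top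
    · exact gen_inv ih (by omega) (adm0_empty m _ 0 False) (fun h => absurd h (by simp))

lemma next_agree (m : ℕ) (S : PL) {x y : ℕ} (hx : x < m) (hy : y < m) :
    ((next H p Λ m S).lt x y ↔ S.lt x y) ∧ ((next H p Λ m S).adj x y ↔ S.adj x y) ∧
      (next H p Λ m S).lev x = S.lev x ∧ ((next H p Λ m S).P x ↔ S.P x) := by
  unfold next
  split_ifs <;> exact ⟨step_lt hx hy, step_adj hx hy, step_lev hx, step_P hx⟩

lemma sq_agree {m m' : ℕ} (hmm : m ≤ m') {x y : ℕ} (hx : x < m) (hy : y < m) :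
    ((sq H p Λ m').lt x y ↔ (sq H p Λ m).lt x y) ∧ ((sq H p Λ m').adj x y ↔ (sq H p Λ m).adj x y) ∧
      (sq H p Λ m').lev x = (sq H p Λ m).lev x ∧ ((sq H p Λ m').P x ↔ (sq H p Λ m).P x) := by
  induction m', hmm using Nat.le_induction with
  | base => exact ⟨Iff.rfl, Iff.rfl, rfl, Iff.rfl⟩
  | succ k hk ih =>
    have h1 := next_agree (H := H) (p := p) (Λ := Λ) k (sq H p Λ k)
      (lt_of_lt_of_le hx hk) (lt_of_lt_of_le hy hk)
    exact ⟨h1.1.trans ih.1, h1.2.1.trans ih.2.1, h1.2.2.1.trans ih.2.2.1, h1.2.2.2.trans ih.2.2.2⟩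

/-- the limit -/
noncomputable def lim (H : ℕ → ℕ → Prop) (p : Bool) (Λ : ℕ∞) : PL where
  lt x y := (sq H p Λ (max x y + 1)).lt x y
  adj x y := (sq H p Λ (max x y + 1)).adj x y
  lev x := (sq H p Λ (x + 1)).lev x
  P x := (sq H p Λ (x + 1)).P x

lemma lim_lt {m x y : ℕ} (hx : x < m) (hy : y < m) : (lim H p Λ).lt x y ↔ (sq H p Λ m).lt x y :=
  (sq_agree (m := max x y + 1) (m' := m) (by omega) (by omega) (by omega)).1.symm

lemma lim_adj {m x y : ℕ} (hx : x < m) (hy : y < m) :
    (lim H p Λ).adj x y ↔ (sq H p Λ m).adj x y :=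
  (sq_agree (m := max x y + 1) (m' := m) (by omega) (by omega) (by omega)).2.1.symm

lemma lim_lev {m x : ℕ} (hx : x < m) : (lim H p Λ).lev x = (sq H p Λ m).lev x :=
  (sq_agree (m := x + 1) (m' := m) (by omega) (y := x) (by omega) (by omega)).2.2.1.symm

lemma lim_P {m x : ℕ} (hx : x < m) : (lim H p Λ).P x ↔ (sq H p Λ m).P x :=
  (sq_agree (m := x + 1) (m' := m) (by omega) (y := x) (by omega) (by omega)).2.2.2.symm

/-- the structure -/
noncomputable def toPG (H : ℕ → ℕ → Prop) (p : Bool) (Λ : ℕ∞) : PG ℕ where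
  lt := (lim H p Λ).lt
  adj := (lim H p Λ).adj
  P := (lim H p Λ).P
  W n x := (lim H p Λ).lev x ≤ n

lemma inf_iff (x : ℕ) : Inf (toPG H p Λ) x ↔ (lim H p Λ).lev x = ⊤ := by
  constructor
  · intro h
    by_contra hc
    obtain ⟨n, hn⟩ := ENat.ne_top_iff_exists.1 hc
    apply h n
    show (lim H p Λ).lev x ≤ n
    rw [← hn]
  · intro h n hn
    change (lim H p Λ).lev x ≤ n at hn
    rw [h, top_le_iff] at hn
    exact ENat.natCast_ne_top n hn

/-- the generic property -/
lemma generic (F A B C : Finset ℕ) (N : ℕ∞) (b : Bool)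
    (hV : Valid (toPG H p Λ) F A B C) (lA : ∀ a ∈ A, (lim H p Λ).lev a ≤ N)
    (lB : ∀ a ∈ B, N ≤ (lim H p Λ).lev a) (pA : ∀ a ∈ A, (lim H p Λ).P a → b = true)
    (pB : ∀ a ∈ B, b = true → (lim H p Λ).P a) (top : N = ⊤ → ∃ a ∈ A, (lim H p Λ).lev a = ⊤) :
    ∃ y, Real (toPG H p Λ) F A B C y ∧ (lim H p Λ).lev y = N ∧ ((lim H p Λ).P y ↔ b = true) := by
  obtain ⟨k, hk, hkt⟩ := task_spec ⟨F, A, B, C, N, b⟩ (F.sup id + 1)
  obtain ⟨m, hm⟩ : ∃ m, m = 2 * k + 1 := ⟨_, rfl⟩
  have hFm : ∀ x ∈ F, x < m := by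
    intro x hx
    have : x ≤ F.sup id := Finset.le_sup (f := id) hx
    omega
  have hm2 : m / 2 = k := by omega
  have hadm : Adm m (sq H p Λ m) (task (m / 2)) := by
    rw [hm2, hkt]
    refine ⟨⟨?_, ?_, ?_, ?_, ?_, ?_, ?_⟩, ?_, ?_, ?_, ?_, ?_, ?_, ?_⟩
    · exact fun a ha => hFm a (hV.hA ha)
    · exact fun a ha => hFm a (hV.hB ha)
    · intro a ha c hc
      exact (lim_lt (hFm a (hV.hA ha)) (hFm c (hV.hB hc))).1 (hV.lt a ha c hc)
    · intro a ha
      rw [← lim_lev (hFm a (hV.hA ha))]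
      exact lA a ha
    · intro a ha
      rw [← lim_lev (hFm a (hV.hB ha))]
      exact lB a ha
    · intro a ha h1
      exact pA a ha ((lim_P (hFm a (hV.hA ha))).2 h1)
    · intro a ha h1
      exact (lim_P (hFm a (hV.hB ha))).1 (pB a ha h1)
    · exact hFm
    · exact hV.hA
    · exact hV.hB
    · exact hV.hC
    · intro a ha z hz h1
      exact hV.down a ha z hz ((lim_lt (hFm z hz) (hFm a (hV.hA ha))).2 h1)
    · intro a ha z hz h1
      exact hV.up a ha z hz ((lim_lt (hFm a (hV.hB ha)) (hFm z hz)).2 h1)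
    · intro h1
      obtain ⟨a, ha, ha2⟩ := top h1
      exact ⟨a, ha, by rw [← lim_lev (hFm a (hV.hA ha))]; exact ha2⟩
  have hsq : sq H p Λ (m + 1) = step m (sq H p Λ m) A B C N (b = true) := by
    show next H p Λ m (sq H p Λ m) = _
    unfold next
    rw [if_neg (by omega), if_pos hadm, hm2, hkt]
  refine ⟨m, ⟨?_, ?_, ?_, ?_⟩, ?_, ?_⟩
  · intro h1
    exact lt_irrefl _ (hFm m h1)
  · intro z hz
    have e1 : (toPG H p Λ).lt z m ↔ (sq H p Λ (m + 1)).lt z m :=
      lim_lt (by have := hFm z hz; omega) (by omega)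
    rw [e1, hsq, step_lt_m (hFm z hz)]
    constructor
    · rintro ⟨a, ha, h1⟩
      rcases h1 with rfl | h1
      · exact ha
      · exact hV.down a ha z hz ((lim_lt (hFm z hz) (hFm a (hV.hA ha))).2 h1)
    · intro h1
      exact ⟨z, h1, Or.inl rfl⟩
  · intro z hz
    have e1 : (toPG H p Λ).lt m z ↔ (sq H p Λ (m + 1)).lt m z :=
      lim_lt (by omega) (by have := hFm z hz; omega)
    rw [e1, hsq, step_m_lt (hFm z hz)]
    constructor
    · rintro ⟨a, ha, h1⟩
      rcases h1 with rfl | h1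
      · exact ha
      · exact hV.up a ha z hz ((lim_lt (hFm a (hV.hB ha)) (hFm z hz)).2 h1)
    · intro h1
      exact ⟨z, h1, Or.inl rfl⟩
  · intro z hz
    have e1 : (toPG H p Λ).adj m z ↔ (sq H p Λ (m + 1)).adj m z :=
      lim_adj (by omega) (by have := hFm z hz; omega)
    rw [e1, hsq, step_m_adj (hFm z hz)]
  · rw [lim_lev (m := m + 1) (by omega), hsq, step_lev_m]
  · rw [lim_P (m := m + 1) (by omega), hsq, step_P_m]

lemma good (hs : ∀ x y, H x y → H y x) (hir : ∀ x, ¬ H x x) : Good (toPG H p Λ) := by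
  have hinv : ∀ m, Inv2 H p Λ m (sq H p Λ m) := sq_inv hs hir
  have hmono : ∀ x y, (lim H p Λ).lt x y → (lim H p Λ).lev x ≤ (lim H p Λ).lev y := by
    intro x y h
    rw [lim_lt (m := max x y + 1) (by omega) (by omega)] at h
    rw [lim_lev (m := max x y + 1) (by omega), lim_lev (m := max x y + 1) (x := y) (by omega)]
    exact (hinv _).lev_mono x y h
  refine ⟨?_, ?_, ?_, ?_, ?_, ?_, ?_, ?_, ?_⟩
  · intro x h
    exact (hinv _).irr x h
  · intro x y z hxy hyz
    change (lim H p Λ).lt x y at hxy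
    change (lim H p Λ).lt y z at hyz
    change (lim H p Λ).lt x z
    rw [lim_lt (m := max x (max y z) + 1) (by omega) (by omega)] at hxy hyz ⊢
    exact (hinv _).trans x y z hxy hyz
  · intro x y h
    change (lim H p Λ).adj x y at h
    change (lim H p Λ).adj y x
    rw [lim_adj (m := max x y + 1) (by omega) (by omega)] at h ⊢
    exact (hinv _).adj_symm x y h
  · intro x h
    exact (hinv _).adj_irr x h
  · intro x y h hx
    change (lim H p Λ).lt x y at h
    change (lim H p Λ).P x at hx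
    change (lim H p Λ).P y
    rw [lim_lt (m := max x y + 1) (by omega) (by omega)] at h
    rw [lim_P (m := max x y + 1) (by omega)] at hx ⊢
    exact (hinv _).P_up x y h hx
  · intro n x y h hy
    exact le_trans (hmono x y h) hy
  · intro n x h
    change (lim H p Λ).lev x ≤ n at h
    change (lim H p Λ).lev x ≤ ((n + 1 : ℕ) : ℕ∞)
    exact le_trans h (by exact_mod_cast Nat.le_succ n)
  · intro F A B C n b hV hA hB hpA hpB
    obtain ⟨y, h1, h2, h3⟩ := generic F A B C (n : ℕ∞) b hV hA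
      (by
        intro c hc
        by_contra hcon
        push Not at hcon
        obtain ⟨k, hk⟩ := ENat.ne_top_iff_exists.1 (ne_top_of_lt hcon)
        rw [← hk] at hcon
        have hkn : k < n := by exact_mod_cast hcon
        apply hB c hc k hkn
        show (lim H p Λ).lev c ≤ k
        rw [← hk])
      hpA hpB (fun h => absurd h (ENat.natCast_ne_top n))
    refine ⟨y, h1, ?_, ?_, h3⟩
    · show (lim H p Λ).lev y ≤ n
      rw [h2]
    · intro k hk h4
      change (lim H p Λ).lev y ≤ k at h4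
      rw [h2] at h4
      have : n ≤ k := by exact_mod_cast h4
      omega
  · intro F A B C b hV hpA hpB
    obtain ⟨y, h1, h2, h3⟩ := generic F A B C (A.sup (lim H p Λ).lev) b hV
      (fun a ha => Finset.le_sup (f := (lim H p Λ).lev) ha)
      (fun c hc => Finset.sup_le fun a ha => hmono a c (hV.lt a ha c hc))
      hpA hpB
      (by
        intro h
        rcases A.eq_empty_or_nonempty with hA | hA
        · rw [hA] at h
          simp at h
        · obtain ⟨a, ha, ha2⟩ := Finset.exists_mem_eq_sup A hA (lim H p Λ).lev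
          exact ⟨a, ha, by rw [← ha2]; exact h⟩)
    exact ⟨y, h1, h3⟩

end final

end Con1

open Con1 in
theorem s_con : S_con := by
  intro H hs hir p
  have hinv : ∀ m, Inv2 H p ⊤ m (sq H p ⊤ m) := sq_inv hs hir
  have hblev : ∀ i, (lim H p ⊤).lev (2 * i) = ⊤ := by
    intro i
    rw [lim_lev (m := 2 * i + 1) (by omega)]
    exact (hinv _).blev i (by omega)
  refine ⟨toPG H p ⊤, fun i => 2 * i, good hs hir, ?_, ?_, ?_, ?_, ?_⟩
  · intro i j h
    have : 2 * i = 2 * j := h
    omega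
  · intro x
    constructor
    · rintro ⟨h1, h2⟩
      by_contra hc
      have hx : x % 2 = 1 := by
        by_contra h3
        exact hc ⟨x / 2, by show x = 2 * (x / 2); omega⟩
      rw [inf_iff] at h1
      rw [lim_lev (m := x + 1) (by omega)] at h1
      obtain ⟨z, hz1, hz2⟩ := (hinv (x + 1)).oinf x (by omega) h1 hx
      have hz3 := ((hinv (x + 1)).lts z x hz2).1
      apply h2 z
      · rw [inf_iff, lim_lev (m := x + 1) hz3]
        exact hz1
      · exact (lim_lt hz3 (by omega)).2 hz2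
    · rintro ⟨i, rfl⟩
      refine ⟨(inf_iff _).2 (hblev i), ?_⟩
      intro z hz h
      rw [inf_iff] at hz
      have h' : (lim H p ⊤).lt z (2 * i) := h
      rw [lim_lt (m := max z (2 * i) + 1) (by omega) (by omega)] at h'
      rw [lim_lev (m := max z (2 * i) + 1) (by omega)] at hz
      exact (hinv _).bmin i z h' hz
  · intro i j
    have e1 : (toPG H p ⊤).adj (2 * i) (2 * j) ↔ (sq H p ⊤ (2 * i + 2 * j + 1)).adj (2 * i) (2 * j) :=
      lim_adj (by omega) (by omega)
    show (toPG H p ⊤).adj (2 * i) (2 * j) ↔ H i j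
    rw [e1]
    exact (hinv _).bH i j (by omega) (by omega)
  · intro i
    have e1 : (toPG H p ⊤).P (2 * i) ↔ (sq H p ⊤ (2 * i + 1)).P (2 * i) := lim_P (by omega)
    show (toPG H p ⊤).P (2 * i) ↔ p = true
    rw [e1]
    exact (hinv _).bP i (by omega)
  · intro hp x hx
    rw [inf_iff, lim_lev (m := x + 1) (by omega)] at hx
    have e1 : (toPG H p ⊤).P x ↔ (sq H p ⊤ (x + 1)).P x := lim_P (by omega)
    rw [e1]
    exact (hinv _).pinf hp x (by omega) hx

open Con1 in
theorem s_pri : S_pri := by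
  have hs : ∀ x y : ℕ, (fun _ _ => False : ℕ → ℕ → Prop) x y →
    (fun _ _ => False : ℕ → ℕ → Prop) y x := fun _ _ h => h
  have hir : ∀ x : ℕ, ¬ (fun _ _ => False : ℕ → ℕ → Prop) x x := fun _ h => h
  refine ⟨toPG (fun _ _ => False) false 0, good hs hir, ?_⟩
  intro x hx
  rw [inf_iff, lim_lev (m := x + 1) (by omega)] at hx
  exact (sq_inv hs hir (x + 1)).fin (by simp) x (by omega) hx

end R624TB
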