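import Pool.Agent.R624.TB.Defs

/-!
# Piece (emb): embeddings of good structures
-/

set_option autoImplicit false

namespace R624TB

open FirstOrder Set

namespace EmbAux

/-- the invariant of the construction -/
structure Inv (S S' : PG ℕ) (D : Finset ℕ) (k : ℕ) (g : ℕ → ℕ) : Prop where
  inj : ∀ x < k, ∀ y < k, g x = g y → x = y
  lt : ∀ x < k, ∀ y < k, (S.lt x y ↔ S'.lt (g x) (g y))
  adj : ∀ x < k, ∀ y < k, (S.adj x y ↔ S'.adj (g x) (g y))
  P : ∀ x < k, (S.P x ↔ S'.P (g x))
  W : ∀ x < k, ∀ n, (S.W n x ↔ S'.W n (g x))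
  D1 : ∀ x < k, ∀ d ∈ D, (S'.lt d (g x) ↔ Inf S x)
  D2 : ∀ x < k, ∀ d ∈ D, ¬ S'.lt (g x) d
  D3 : ∀ x < k, ∀ d ∈ D, g x ≠ d

open Classical in
/-- images of the elements below `k` with a property -/
noncomputable def im (k : ℕ) (g : ℕ → ℕ) (Q : ℕ → Prop) : Finset ℕ :=
  ((Finset.range k).filter Q).image g

theorem mem_im {k : ℕ} {g : ℕ → ℕ} {Q : ℕ → Prop} {z : ℕ} :
    z ∈ im k g Q ↔ ∃ x < k, Q x ∧ g x = z := by
  unfold im
  simp only [Finset.mem_image, Finset.mem_filter, Finset.mem_range]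
  constructor
  · rintro ⟨x, ⟨h1, h2⟩, h3⟩; exact ⟨x, h1, h2, h3⟩
  · rintro ⟨x, h1, h2, h3⟩; exact ⟨x, ⟨h1, h2⟩, h3⟩

variable {S S' : PG ℕ} {D : Finset ℕ} {k : ℕ} {g : ℕ → ℕ}

theorem mem_im_iff (hI : Inv S S' D k g) {Q : ℕ → Prop} {x : ℕ} (hx : x < k) :
    g x ∈ im k g Q ↔ Q x := by
  rw [mem_im]
  constructor
  · rintro ⟨y, hy, hQ, he⟩
    rw [← hI.inj y hy x hx he]; exact hQ
  · intro hQ; exact ⟨x, hx, hQ, rfl⟩

theorem not_mem_im (hI : Inv S S' D k g) {Q : ℕ → Prop} {d : ℕ} (hd : d ∈ D) :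
    d ∉ im k g Q := by
  rw [mem_im]
  rintro ⟨x, hx, _, he⟩
  exact hI.D3 x hx d hd he

/-- the finite set -/
noncomputable def FF (D : Finset ℕ) (k : ℕ) (g : ℕ → ℕ) : Finset ℕ := im k g (fun _ => True) ∪ D

theorem mem_FF {z : ℕ} : z ∈ FF D k g ↔ (∃ x < k, g x = z) ∨ z ∈ D := by
  unfold FF
  rw [Finset.mem_union, mem_im]
  simp

theorem valid_step (hS : Good S) (hS' : Good S') (hI : Inv S S' D k g)
    (hD1 : ∀ d ∈ D, ∀ d' ∈ D, d = d') (E : Finset ℕ) (hE1 : Inf S k → E = D)
    (hE2 : ¬ Inf S k → E = ∅) :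
    Valid S' (FF D k g) (im k g (fun a => S.lt a k) ∪ E) (im k g (fun b => S.lt k b))
      (im k g (fun c => S.adj k c)) := by
  have hED : ∀ d ∈ E, d ∈ D ∧ Inf S k := by
    intro d hd
    by_cases h : Inf S k
    · rw [hE1 h] at hd; exact ⟨hd, h⟩
    · rw [hE2 h] at hd; simp at hd
  have hsub : ∀ Q : ℕ → Prop, im k g Q ⊆ FF D k g := by
    intro Q z hz
    rw [mem_im] at hz
    obtain ⟨x, hx, _, he⟩ := hz
    exact mem_FF.2 (Or.inl ⟨x, hx, he⟩)
  refine ⟨?_, hsub _, hsub _, ?_, ?_, ?_⟩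
  · refine Finset.union_subset (hsub _) ?_
    intro d hd
    exact mem_FF.2 (Or.inr (hED d hd).1)
  · intro a ha z hz hza
    rw [Finset.mem_union] at ha
    rcases ha with ha | ha
    · rw [mem_im] at ha
      obtain ⟨a', ha'k, ha', rfl⟩ := ha
      rcases mem_FF.1 hz with ⟨z', hz'k, rfl⟩ | hzD
      · have h1 := (hI.lt z' hz'k a' ha'k).2 hza
        rw [Finset.mem_union, mem_im_iff hI hz'k]
        exact Or.inl (hS.trans _ _ _ h1 ha')
      · have h1 := (hI.D1 a' ha'k z hzD).1 hza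
        have h2 : Inf S k := fun n hn => h1 n (hS.W_down n _ _ ha' hn)
        rw [Finset.mem_union, hE1 h2]
        exact Or.inr hzD
    · obtain ⟨haD, hinf⟩ := hED a ha
      rcases mem_FF.1 hz with ⟨z', hz'k, rfl⟩ | hzD
      · exact absurd hza (hI.D2 z' hz'k a haD)
      · rw [hD1 z hzD a haD] at hza
        exact absurd hza (hS'.irr a)
  · intro b hb z hz hbz
    rw [mem_im] at hb
    obtain ⟨b', hb'k, hb', rfl⟩ := hb
    rcases mem_FF.1 hz with ⟨z', hz'k, rfl⟩ | hzD
    · have h1 := (hI.lt b' hb'k z' hz'k).2 hbz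
      rw [mem_im_iff hI hz'k]
      exact hS.trans _ _ _ hb' h1
    · exact absurd hbz (hI.D2 b' hb'k z hzD)
  · intro a ha b hb
    rw [mem_im] at hb
    obtain ⟨b', hb'k, hb', rfl⟩ := hb
    rw [Finset.mem_union] at ha
    rcases ha with ha | ha
    · rw [mem_im] at ha
      obtain ⟨a', ha'k, ha', rfl⟩ := ha
      exact (hI.lt a' ha'k b' hb'k).1 (hS.trans _ _ _ ha' hb')
    · obtain ⟨haD, hinf⟩ := hED a ha
      refine (hI.D1 b' hb'k a haD).2 ?_
      intro n hn
      exact hinf n (hS.W_down n _ _ hb' hn)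

theorem inv_step (hS : Good S) (hS' : Good S') (hI : Inv S S' D k g) (E : Finset ℕ)
    (hE1 : Inf S k → E = D) (hE2 : ¬ Inf S k → E = ∅) (y : ℕ)
    (hy : Real S' (FF D k g) (im k g (fun a => S.lt a k) ∪ E) (im k g (fun b => S.lt k b))
      (im k g (fun c => S.adj k c)) y)
    (hP : S.P k ↔ S'.P y) (hW : ∀ n, S.W n k ↔ S'.W n y) :
    Inv S S' D (k + 1) (Function.update g k y) := by
  have hgx : ∀ x, x < k → Function.update g k y x = g x := fun x hx =>
    Function.update_of_ne (ne_of_lt hx) _ _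
  have hgk : Function.update g k y k = y := Function.update_self _ _ _
  have hFx : ∀ x < k, g x ∈ FF D k g := fun x hx => mem_FF.2 (Or.inl ⟨x, hx, rfl⟩)
  have hFd : ∀ d ∈ D, d ∈ FF D k g := fun d hd => mem_FF.2 (Or.inr hd)
  have hED : ∀ d ∈ E, d ∈ D := by
    intro d hd
    by_cases h : Inf S k
    · rw [hE1 h] at hd; exact hd
    · rw [hE2 h] at hd; simp at hd
  have hcase : ∀ x, x < k + 1 → x < k ∨ x = k := fun x hx => by omega
  have hbelow : ∀ x < k, (S'.lt (g x) y ↔ S.lt x k) := by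
    intro x hx
    rw [hy.below _ (hFx x hx), Finset.mem_union, mem_im_iff hI hx]
    constructor
    · rintro (h | h)
      · exact h
      · exact absurd rfl (hI.D3 x hx _ (hED _ h))
    · exact Or.inl
  have habove : ∀ x < k, (S'.lt y (g x) ↔ S.lt k x) := by
    intro x hx
    rw [hy.above _ (hFx x hx), mem_im_iff hI hx]
  have hadj : ∀ x < k, (S'.adj y (g x) ↔ S.adj k x) := by
    intro x hx
    rw [hy.adj _ (hFx x hx), mem_im_iff hI hx]
  refine ⟨?_, ?_, ?_, ?_, ?_, ?_, ?_, ?_⟩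
  · intro x hx z hz he
    rcases hcase x hx with hx | rfl <;> rcases hcase z hz with hz | rfl
    · rw [hgx x hx, hgx z hz] at he; exact hI.inj x hx z hz he
    · rw [hgx x hx, hgk] at he
      exact absurd (he ▸ hFx x hx) hy.new
    · rw [hgx z hz, hgk] at he
      exact absurd (he ▸ hFx z hz) hy.new
    · rfl
  · intro x hx z hz
    rcases hcase x hx with hx | rfl <;> rcases hcase z hz with hz | rfl
    · rw [hgx x hx, hgx z hz]; exact hI.lt x hx z hz
    · rw [hgx x hx, hgk]; exact (hbelow x hx).symm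
    · rw [hgx z hz, hgk]; exact (habove z hz).symm
    · rw [hgk]; exact iff_of_false (hS.irr _) (hS'.irr _)
  · intro x hx z hz
    rcases hcase x hx with hx | rfl <;> rcases hcase z hz with hz | rfl
    · rw [hgx x hx, hgx z hz]; exact hI.adj x hx z hz
    · rw [hgx x hx, hgk]
      constructor
      · intro h; exact hS'.adj_symm _ _ ((hadj x hx).2 (hS.adj_symm _ _ h))
      · intro h; exact hS.adj_symm _ _ ((hadj x hx).1 (hS'.adj_symm _ _ h))
    · rw [hgx z hz, hgk]; exact (hadj z hz).symm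
    · rw [hgk]; exact iff_of_false (hS.adj_irr _) (hS'.adj_irr _)
  · intro x hx
    rcases hcase x hx with hx | rfl
    · rw [hgx x hx]; exact hI.P x hx
    · rw [hgk]; exact hP
  · intro x hx
    rcases hcase x hx with hx | rfl
    · rw [hgx x hx]; exact hI.W x hx
    · rw [hgk]; exact hW
  · intro x hx d hd
    rcases hcase x hx with hx | rfl
    · rw [hgx x hx]; exact hI.D1 x hx d hd
    · rw [hgk, hy.below d (hFd d hd), Finset.mem_union]
      constructor
      · rintro (h | h)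
        · exact absurd h (not_mem_im hI hd)
        · by_contra hni
          rw [hE2 hni] at h
          simp at h
      · intro h
        rw [hE1 h]
        exact Or.inr hd
  · intro x hx d hd
    rcases hcase x hx with hx | rfl
    · rw [hgx x hx]; exact hI.D2 x hx d hd
    · rw [hgk, hy.above d (hFd d hd)]
      exact not_mem_im hI hd
  · intro x hx d hd
    rcases hcase x hx with hx | rfl
    · rw [hgx x hx]; exact hI.D3 x hx d hd
    · rw [hgk]
      intro he
      exact hy.new (he ▸ hFd d hd)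

theorem W_le {S : PG ℕ} (hS : Good S) {n m x : ℕ} (h : S.W n x) (hnm : n ≤ m) : S.W m x := by
  induction m, hnm using Nat.le_induction with
  | base => exact h
  | succ m _ ih => exact hS.W_mono m x ih

theorem exists_step (hS : Good S) (hS' : Good S') (hD0 : ∀ d ∈ D, Inf S' d)
    (hD1 : ∀ d ∈ D, ∀ d' ∈ D, d = d') (hDP : ∀ d ∈ D, S'.P d → ∀ x, Inf S x → S.P x)
    (hDne : (∃ x, Inf S x) → D.Nonempty) (hI : Inv S S' D k g) :
    ∃ y, Inv S S' D (k + 1) (Function.update g k y) := by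
  classical
  by_cases hk : Inf S k
  · have hV := valid_step hS hS' hI hD1 D (fun _ => rfl) (fun h => absurd hk h)
    obtain ⟨y, hy, hyP⟩ := hS'.ep2 _ _ _ _ (decide (S.P k)) hV
      (by
        intro a ha hPa
        rw [Finset.mem_union] at ha
        rcases ha with ha | ha
        · rw [mem_im] at ha
          obtain ⟨a', ha'k, ha', rfl⟩ := ha
          exact decide_eq_true (hS.P_up _ _ ha' ((hI.P a' ha'k).2 hPa))
        · exact decide_eq_true (hDP a ha hPa k hk))
      (by
        intro b hb hp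
        rw [mem_im] at hb
        obtain ⟨b', hb'k, hb', rfl⟩ := hb
        exact (hI.P b' hb'k).1 (hS.P_up _ _ hb' (of_decide_eq_true hp)))
    refine ⟨y, inv_step hS hS' hI D (fun _ => rfl) (fun h => absurd hk h) y hy ?_ ?_⟩
    · rw [hyP]; simp
    · intro n
      refine iff_of_false (hk n) ?_
      obtain ⟨d, hd⟩ := hDne ⟨k, hk⟩
      have h1 : S'.lt d y := (hy.below d (mem_FF.2 (Or.inr hd))).2 (by
        rw [Finset.mem_union]; exact Or.inr hd)
      intro h2
      exact hD0 d hd n (hS'.W_down n _ _ h1 h2)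
  · have hex : ∃ n, S.W n k := by
      unfold Inf at hk
      push Not at hk
      exact hk
    obtain ⟨n, hn, hmin⟩ : ∃ n, S.W n k ∧ ∀ m < n, ¬ S.W m k :=
      ⟨Nat.find hex, Nat.find_spec hex, fun m hm => Nat.find_min hex hm⟩
    have hV := valid_step hS hS' hI hD1 ∅ (fun h => absurd h hk) (fun _ => rfl)
    obtain ⟨y, hy, hyW, hym, hyP⟩ := hS'.ep1 _ _ _ _ n (decide (S.P k)) hV
      (by
        intro a ha
        rw [Finset.mem_union] at ha
        rcases ha with ha | ha
        · rw [mem_im] at ha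
          obtain ⟨a', ha'k, ha', rfl⟩ := ha
          exact (hI.W a' ha'k n).1 (hS.W_down n _ _ ha' hn)
        · simp at ha)
      (by
        intro b hb m hm hWb
        rw [mem_im] at hb
        obtain ⟨b', hb'k, hb', rfl⟩ := hb
        exact hmin m hm (hS.W_down m _ _ hb' ((hI.W b' hb'k m).2 hWb)))
      (by
        intro a ha hPa
        rw [Finset.mem_union] at ha
        rcases ha with ha | ha
        · rw [mem_im] at ha
          obtain ⟨a', ha'k, ha', rfl⟩ := ha
          exact decide_eq_true (hS.P_up _ _ ha' ((hI.P a' ha'k).2 hPa))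
        · simp at ha)
      (by
        intro b hb hp
        rw [mem_im] at hb
        obtain ⟨b', hb'k, hb', rfl⟩ := hb
        exact (hI.P b' hb'k).1 (hS.P_up _ _ hb' (of_decide_eq_true hp)))
    refine ⟨y, inv_step hS hS' hI ∅ (fun h => absurd h hk) (fun _ => rfl) y hy ?_ ?_⟩
    · rw [hyP]; simp
    · intro j
      by_cases hj : j < n
      · exact iff_of_false (hmin j hj) (hym j hj)
      · exact iff_of_true (W_le hS hn (not_lt.1 hj)) (W_le hS' hyW (not_lt.1 hj))

end EmbAux

open EmbAux in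
theorem s_emb : S_emb := by
  intro S S' hS hS' D hD0 hD1 hDP hDne
  have hstep : ∀ (k : ℕ) (g : ℕ → ℕ), Inv S S' D k g →
      ∃ y, Inv S S' D (k + 1) (Function.update g k y) := fun k g hI =>
    exists_step hS hS' hD0 hD1 hDP hDne hI
  choose! Y hY using hstep
  let G : ℕ → ℕ → ℕ := fun n => Nat.rec (fun _ => 0) (fun k g => Function.update g k (Y k g)) n
  have hG0 : G 0 = fun _ => 0 := rfl
  have hGs : ∀ k, G (k + 1) = Function.update (G k) k (Y k (G k)) := fun _ => rfl
  have hInv : ∀ k, Inv S S' D k (G k) := by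
    intro k
    induction k with
    | zero =>
      refine ⟨?_, ?_, ?_, ?_, ?_, ?_, ?_, ?_⟩ <;> intro x hx <;> exact absurd hx (Nat.not_lt_zero x)
    | succ k ih => rw [hGs]; exact hY k (G k) ih
  have hstab : ∀ k x, x < k → G k x = G (x + 1) x := by
    intro k
    induction k with
    | zero => intro x hx; exact absurd hx (Nat.not_lt_zero x)
    | succ k ih =>
      intro x hx
      rcases Nat.lt_succ_iff_lt_or_eq.1 hx with h | h
      · rw [hGs, Function.update_of_ne (ne_of_lt h)]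
        exact ih x h
      · rw [h]
  refine ⟨fun n => G (n + 1) n, ?_⟩
  have h1 : ∀ x y : ℕ, ∃ k, x < k ∧ y < k ∧ G (x + 1) x = G k x ∧ G (y + 1) y = G k y := by
    intro x y
    refine ⟨max x y + 1, by omega, by omega, ?_, ?_⟩
    · exact (hstab (max x y + 1) x (by omega)).symm
    · exact (hstab (max x y + 1) y (by omega)).symm
  refine ⟨?_, ?_, ?_, ?_, ?_⟩
  · intro x y he
    obtain ⟨k, hx, hy, ex, ey⟩ := h1 x y
    have he' : G k x = G k y := by rw [← ex, ← ey]; exact he
    exact (hInv k).inj x hx y hy he'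
  · intro x y
    obtain ⟨k, hx, hy, ex, ey⟩ := h1 x y
    show S.lt x y ↔ S'.lt (G (x + 1) x) (G (y + 1) y)
    rw [ex, ey]
    exact (hInv k).lt x hx y hy
  · intro x y
    obtain ⟨k, hx, hy, ex, ey⟩ := h1 x y
    show S.adj x y ↔ S'.adj (G (x + 1) x) (G (y + 1) y)
    rw [ex, ey]
    exact (hInv k).adj x hx y hy
  · intro x
    exact (hInv (x + 1)).P x (Nat.lt_succ_self x)
  · intro n x
    exact (hInv (x + 1)).W x (Nat.lt_succ_self x) n

end R624TB
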