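import Pool.Agent.R624.TB.Defs

set_option autoImplicit false

namespace R624TB

open FirstOrder Set Cardinal

lemma ha_ncard (A : Set ℕ) (m i : ℕ) (hm : m ∈ A) (hi : i ≤ m + 1) :
    {y | HA A (Nat.pair m i) y}.ncard = m + 1 := by
  have h : {y | HA A (Nat.pair m i) y} =
      ((((Finset.range (m + 2)).erase i).image (Nat.pair m) : Finset ℕ) : Set ℕ) := by
    ext y
    simp only [Set.mem_ofPred_eq, Finset.coe_image, Set.mem_image, Finset.mem_coe,
      Finset.mem_erase, Finset.mem_range]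
    constructor
    · rintro ⟨n, hn, a, b, hab, ha, hb, h1, h2⟩
      obtain ⟨rfl, rfl⟩ := Nat.pair_eq_pair.1 h1
      exact ⟨b, ⟨fun h => hab h.symm, by omega⟩, h2.symm⟩
    · rintro ⟨b, ⟨hb, hb'⟩, rfl⟩
      exact ⟨m, hm, i, b, fun h => hb h.symm, hi, by omega, rfl, rfl⟩
  rw [h, Set.ncard_coe_finset, Finset.card_image_of_injective, Finset.card_erase_of_mem,
    Finset.card_range]
  · rfl
  · rw [Finset.mem_range]; omega
  · intro a b hab
    exact (Nat.pair_eq_pair.1 hab).2

theorem s_deg : S_deg := by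
  intro A n
  constructor
  · intro hn
    exact ⟨Nat.pair n 0, ha_ncard A n 0 hn (Nat.zero_le _)⟩
  · rintro ⟨x, hx⟩
    have hne : {y | HA A x y}.Nonempty := by
      rw [Set.nonempty_iff_ne_empty]
      intro h
      rw [h, Set.ncard_empty] at hx
      omega
    obtain ⟨y, m, hm, i, j, hij, hi, hj, rfl, rfl⟩ := hne
    rw [ha_ncard A m i hm hi] at hx
    have : m = n := by omega
    exact this ▸ hm

lemma iso_data {S S' : PG ℕ} (h : Iso (toStr S) (toStr S')) :
    ∃ g : ℕ ≃ ℕ, (∀ x y, S.lt x y ↔ S'.lt (g x) (g y)) ∧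
      (∀ x y, S.adj x y ↔ S'.adj (g x) (g y)) ∧ ∀ n x, S.W n x ↔ S'.W n (g x) := by
  obtain ⟨g⟩ := h
  refine ⟨@FirstOrder.Language.Equiv.toEquiv LL ℕ ℕ (toStr S) (toStr S') g,
    fun x y => ?_, fun x y => ?_, fun n x => ?_⟩
  · have := @FirstOrder.Language.Equiv.map_rel' LL ℕ ℕ (toStr S) (toStr S') g 2 Rel.lt ![x, y]
    exact this.symm
  · have := @FirstOrder.Language.Equiv.map_rel' LL ℕ ℕ (toStr S) (toStr S') g 2 Rel.adj ![x, y]
    exact this.symm
  · have := @FirstOrder.Language.Equiv.map_rel' LL ℕ ℕ (toStr S) (toStr S') g 1 (Rel.W n) ![x]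
    exact this.symm

theorem s_inv (hdeg : S_deg) : S_inv := by
  intro A B S S' e e' hS hS' he he' hm hm' ha ha' hiso
  obtain ⟨g, hlt, hadj, hW⟩ := iso_data hiso
  have hInf : ∀ x, Inf S x ↔ Inf S' (g x) := fun x =>
    forall_congr' fun n => not_congr (hW n x)
  have hMin : ∀ x, MinInf S x ↔ MinInf S' (g x) := by
    intro x
    unfold MinInf
    refine and_congr (hInf x) ?_
    constructor
    · intro h z hz hzx
      have h1 : Inf S (g.symm z) := by
        rw [hInf, Equiv.apply_symm_apply]; exact hz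
      refine h _ h1 ?_
      rw [hlt, Equiv.apply_symm_apply]
      exact hzx
    · intro h z hz hzx
      exact h (g z) ((hInf z).1 hz) ((hlt z x).1 hzx)
  have h1 : ∀ i, ∃ j, g (e i) = e' j := fun i =>
    (hm' _).1 ((hMin _).1 ((hm _).2 ⟨i, rfl⟩))
  choose σ hσ using h1
  have hσinj : Function.Injective σ := by
    intro i j hij
    have : g (e i) = g (e j) := by rw [hσ, hσ, hij]
    exact he (g.injective this)
  have hσsurj : Function.Surjective σ := by
    intro j
    have h2 : MinInf S (g.symm (e' j)) := by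
      rw [hMin, Equiv.apply_symm_apply]
      exact (hm' _).2 ⟨j, rfl⟩
    obtain ⟨i, hi⟩ := (hm _).1 h2
    refine ⟨i, he' ?_⟩
    rw [← hσ, ← hi, Equiv.apply_symm_apply]
  have hH : ∀ i j, HA A i j ↔ HA B (σ i) (σ j) := by
    intro i j
    rw [← ha, ← ha', hadj, hσ, hσ]
  have hcard : ∀ x, {y | HA A x y}.ncard = {y | HA B (σ x) y}.ncard := by
    intro x
    have : {y | HA B (σ x) y} = σ '' {y | HA A x y} := by
      ext y
      constructor
      · intro hy
        obtain ⟨z, rfl⟩ := hσsurj y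
        exact ⟨z, (hH x z).2 hy, rfl⟩
      · rintro ⟨z, hz, rfl⟩
        exact (hH x z).1 hz
    rw [this, Set.ncard_image_of_injective _ hσinj]
  ext n
  rw [hdeg A n, hdeg B n]
  constructor
  · rintro ⟨x, hx⟩
    exact ⟨σ x, by rw [← hcard]; exact hx⟩
  · rintro ⟨x, hx⟩
    obtain ⟨z, rfl⟩ := hσsurj x
    exact ⟨z, by rw [hcard]; exact hx⟩

end R624TB

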