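import Pool.Agent.R624.TB.Defs

/-!
# MP_683aef_lc: assembly
-/

set_option autoImplicit false

namespace R624TB

open FirstOrder Set Cardinal

/-- the theory of a structure on `ℕ` -/
def thy (A : LL.Structure ℕ) : LL.Theory := @FirstOrder.Language.completeTheory LL ℕ A

lemma mem_thy (A : LL.Structure ℕ) (φ : LL.Sentence) : φ ∈ thy A ↔ Sat A φ := by
  let _ := A
  exact FirstOrder.Language.mem_completeTheory

lemma model_thy_iff (A B : LL.Structure ℕ) :
    @FirstOrder.Language.Theory.Model LL ℕ B (thy A) ↔ ∀ φ, Sat A φ → Sat B φ := by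
  constructor
  · intro h φ hφ
    exact @FirstOrder.Language.Theory.realize_sentence_of_mem LL ℕ B (thy A) h φ
      ((mem_thy A φ).2 hφ)
  · intro h
    let _ := B
    rw [FirstOrder.Language.Theory.model_iff]
    intro φ hφ
    exact h φ ((mem_thy A φ).1 hφ)

lemma thy_complete (A : LL.Structure ℕ) : (thy A).IsComplete := by
  let _ := A
  exact FirstOrder.Language.completeTheory.isComplete LL ℕ

lemma thy_infinite (A : LL.Structure ℕ) (M : Type) [inst : LL.Structure M] [hM : M ⊨ thy A] :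
    Infinite M := by
  have key : ∀ n : ℕ, (n : Cardinal) ≤ #M := by
    intro n
    have h1 : Sat A (FirstOrder.Language.Sentence.cardGe LL n) := by
      let _ := A
      refine (FirstOrder.Language.Sentence.realize_cardGe (L := LL) (M := ℕ) n).2 ?_
      simp
    have h2 := FirstOrder.Language.Theory.realize_sentence_of_mem (thy A) (M := M)
      ((mem_thy A _).2 h1)
    rw [FirstOrder.Language.Sentence.realize_cardGe] at h2
    exact h2
  rw [Cardinal.infinite_iff]
  exact Cardinal.aleph0_le.2 key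

lemma iso_refl (A : LL.Structure ℕ) : Iso A A := by
  let _ := A
  exact ⟨FirstOrder.Language.Equiv.refl LL ℕ⟩

lemma iso_symm {A B : LL.Structure ℕ} (h : Iso A B) : Iso B A := by
  obtain ⟨f⟩ := h
  exact ⟨@FirstOrder.Language.Equiv.symm LL ℕ ℕ A B f⟩

lemma iso_trans {A B C : LL.Structure ℕ} (h : Iso A B) (h' : Iso B C) : Iso A C := by
  obtain ⟨f⟩ := h
  obtain ⟨g⟩ := h'
  exact ⟨@FirstOrder.Language.Equiv.comp LL ℕ ℕ A B ℕ C g f⟩

lemma elemb_pres {S S' : PG ℕ} (h : ElEmb (toStr S) (toStr S')) :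
    ∃ f : ℕ → ℕ, (∀ x, S.P x ↔ S'.P (f x)) ∧ ∀ n x, S.W n x ↔ S'.W n (f x) := by
  obtain ⟨f⟩ := h
  refine ⟨@FirstOrder.Language.ElementaryEmbedding.toFun LL ℕ ℕ (toStr S) (toStr S') f, ?_, ?_⟩
  · intro x
    have h1 := @FirstOrder.Language.ElementaryEmbedding.map_rel LL ℕ ℕ (toStr S) (toStr S') f 1
      Rel.P ![x]
    exact h1.symm
  · intro n x
    have h1 := @FirstOrder.Language.ElementaryEmbedding.map_rel LL ℕ ℕ (toStr S) (toStr S') f 1
      (Rel.W n) ![x]
    exact h1.symm

open Classical in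
/-- the similarity class -/
noncomputable def cls (S : PG ℕ) : Fin 3 :=
  if ∀ x, ¬ Inf S x then 0 else if ∀ x, Inf S x → S.P x then 1 else 2

lemma cls_le_of_elemb {S S' : PG ℕ} (h : ElEmb (toStr S) (toStr S')) : cls S ≤ cls S' := by
  obtain ⟨f, hP, hW⟩ := elemb_pres h
  have hI : ∀ x, Inf S x → Inf S' (f x) := fun x hx n hn => hx n ((hW n x).2 hn)
  unfold cls
  by_cases h1 : ∀ x, ¬ Inf S x
  · simp [h1]
  · have h2 : ¬ ∀ x, ¬ Inf S' x := by
      push Not at h1 ⊢
      obtain ⟨x, hx⟩ := h1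
      exact ⟨f x, hI x hx⟩
    by_cases h3 : ∀ x, Inf S x → S.P x
    · simp only [h1, h2, if_false]
      split_ifs <;> decide
    · have h4 : ¬ ∀ x, Inf S' x → S'.P x := by
        push Not at h3 ⊢
        obtain ⟨x, hx, hp⟩ := h3
        exact ⟨f x, hI x hx, fun h => hp ((hP x).2 h)⟩
      simp only [h1, h2, h3, h4, if_false]
      exact le_rfl

lemma elemb_of_cls_le (hel : S_el) (hemb : S_emb) {S S' : PG ℕ} (hS : Good S) (hS' : Good S')
    (h : cls S ≤ cls S') : ElEmb (toStr S) (toStr S') := by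
  classical
  suffices h2 : ∃ D : Finset ℕ, (∀ d ∈ D, Inf S' d) ∧ (∀ d ∈ D, ∀ d' ∈ D, d = d') ∧
      (∀ d ∈ D, S'.P d → ∀ x, Inf S x → S.P x) ∧ ((∃ x, Inf S x) → D.Nonempty) by
    obtain ⟨D, h1, h2, h3, h4⟩ := h2
    obtain ⟨f, hf⟩ := hemb S S' hS hS' D h1 h2 h3 h4
    exact hel S S' hS hS' f hf
  by_cases h1 : ∀ x, ¬ Inf S x
  · refine ⟨∅, by simp, by simp, by simp, ?_⟩
    rintro ⟨x, hx⟩
    exact absurd hx (h1 x)
  have hS'1 : ¬ ∀ x, ¬ Inf S' x := by
    intro h5
    have e1 : cls S' = 0 := by unfold cls; rw [if_pos h5]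
    rw [e1] at h
    have e2 : cls S ≠ 0 := by
      unfold cls
      rw [if_neg h1]
      split_ifs <;> decide
    exact e2 (le_antisymm h (Fin.zero_le _))
  by_cases h3 : ∀ x, Inf S x → S.P x
  · push Not at hS'1
    obtain ⟨d, hd⟩ := hS'1
    refine ⟨{d}, ?_, ?_, ?_, fun _ => Finset.singleton_nonempty d⟩
    · intro d' hd'
      rw [Finset.mem_singleton] at hd'
      rw [hd']; exact hd
    · intro d1 hd1 d2 hd2
      rw [Finset.mem_singleton] at hd1 hd2
      rw [hd1, hd2]
    · intro _ _ _ x hx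
      exact h3 x hx
  · have h4 : ¬ ∀ x, Inf S' x → S'.P x := by
      intro h5
      have e1 : cls S' = 1 := by unfold cls; rw [if_neg hS'1, if_pos h5]
      have e2 : cls S = 2 := by unfold cls; rw [if_neg h1, if_neg h3]
      rw [e1, e2] at h
      exact absurd h (by decide)
    push Not at h4
    obtain ⟨d, hd, hdp⟩ := h4
    refine ⟨{d}, ?_, ?_, ?_, fun _ => Finset.singleton_nonempty d⟩
    · intro d' hd'
      rw [Finset.mem_singleton] at hd'
      rw [hd']; exact hd
    · intro d1 hd1 d2 hd2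
      rw [Finset.mem_singleton] at hd1 hd2
      rw [hd1, hd2]
    · intro d' hd' hp
      rw [Finset.mem_singleton] at hd'
      rw [hd'] at hp
      exact absurd hp hdp

lemma HA_symm (A : Set ℕ) (x y : ℕ) (h : HA A x y) : HA A y x := by
  obtain ⟨n, hn, i, j, hij, hi, hj, hx, hy⟩ := h
  exact ⟨n, hn, j, i, hij.symm, hj, hi, hy, hx⟩

lemma HA_irr (A : Set ℕ) (x : ℕ) : ¬ HA A x x := by
  rintro ⟨n, hn, i, j, hij, hi, hj, hx, hy⟩
  rw [hx] at hy
  have := congrArg Nat.unpair hy
  simp only [Nat.unpair_pair, Prod.mk.injEq] at this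
  exact hij this.2

theorem main (hee : S_ee) (hel : S_el) (hax : S_ax) (hemb : S_emb) (hcon : S_con) (hpri : S_pri)
    (hinv : S_inv) :
    ∃ (L : FirstOrder.Language.{0, 0}) (T : L.Theory),
      Countable (Σ n, L.Functions n) ∧ Countable (Σ n, L.Relations n) ∧ T.IsComplete ∧
      (∀ (M : Type) [L.Structure M] [M ⊨ T], Infinite M) ∧
      2 < numSim T ∧ numSim T < ℵ₀ ∧ ℵ₀ < numIso T := by
  classical
  obtain ⟨S0, hS0, hS0i⟩ := hpri
  refine ⟨LL, thy (toStr S0), ?_, ?_, thy_complete _, fun M _ _ => thy_infinite (toStr S0) M, ?_⟩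
  · have : IsEmpty (Σ n, LL.Functions n) := ⟨fun f => Empty.elim f.2⟩
    infer_instance
  · have hinj : Function.Injective (fun r : (Σ n, LL.Relations n) =>
        (match r with
          | ⟨_, Rel.lt⟩ => 0
          | ⟨_, Rel.adj⟩ => 1
          | ⟨_, Rel.P⟩ => 2
          | ⟨_, Rel.W n⟩ => n + 3 : ℕ)) := by
      rintro ⟨_, r⟩ ⟨_, r'⟩ h
      cases r <;> cases r' <;> simp_all
    exact hinj.countable
  -- good structures are the models
  have hmod : ∀ S : PG ℕ, Good S →
      @FirstOrder.Language.Theory.Model LL ℕ (toStr S) (thy (toStr S0)) := by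
    intro S hS
    rw [model_thy_iff]
    exact fun φ hφ => (hee ℕ ℕ S0 S hS0 hS φ).1 hφ
  have hgood : ∀ A : CMod (thy (toStr S0)), Good (ofStr A.1) := by
    rintro ⟨A, hA⟩
    refine hax S0 hS0 (ofStr A) ?_
    rw [model_thy_iff] at hA
    rw [toStr_ofStr]
    exact hA
  let mk : (S : PG ℕ) → Good S → CMod (thy (toStr S0)) := fun S hS => ⟨toStr S, hmod S hS⟩
  -- the structures for sets of natural numbers
  have hA : ∀ (A : Set ℕ) (p : Bool), ∃ (S : PG ℕ) (e : ℕ → ℕ), Good S ∧ Function.Injective e ∧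
    (∀ x, MinInf S x ↔ ∃ i, x = e i) ∧ (∀ i j, S.adj (e i) (e j) ↔ HA A i j) ∧
    (∀ i, S.P (e i) ↔ p = true) ∧ (p = true → ∀ x, Inf S x → S.P x) :=
    fun A p => hcon (HA A) (HA_symm A) (HA_irr A) p
  -- number of similarity classes
  have hsim : numSim (thy (toStr S0)) = 3 := by
    let g : (Quot fun A B : CMod (thy (toStr S0)) => Similar A.1 B.1) → Fin 3 :=
      Quot.lift (fun A => cls (ofStr A.1)) (by
        intro A B h
        apply le_antisymm
        · apply cls_le_of_elemb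
          rw [toStr_ofStr, toStr_ofStr]
          exact h.1
        · apply cls_le_of_elemb
          rw [toStr_ofStr, toStr_ofStr]
          exact h.2)
    have hg1 : Function.Injective g := by
      rintro ⟨A⟩ ⟨B⟩ h
      have h' : cls (ofStr A.1) = cls (ofStr B.1) := h
      apply Quot.sound
      refine ⟨?_, ?_⟩
      · have := elemb_of_cls_le hel hemb (hgood A) (hgood B) h'.le
        rwa [toStr_ofStr, toStr_ofStr] at this
      · have := elemb_of_cls_le hel hemb (hgood B) (hgood A) h'.ge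
        rwa [toStr_ofStr, toStr_ofStr] at this
    have hg2 : Function.Surjective g := by
      obtain ⟨S1, e1, hS1, -, hm1, -, hp1, hq1⟩ := hA ∅ true
      obtain ⟨S2, e2, hS2, -, hm2, -, hp2, -⟩ := hA ∅ false
      have i1 : Inf S1 (e1 0) := ((hm1 _).2 ⟨0, rfl⟩).1
      have i2 : Inf S2 (e2 0) := ((hm2 _).2 ⟨0, rfl⟩).1
      have c0 : cls S0 = 0 := by unfold cls; rw [if_pos hS0i]
      have c1 : cls S1 = 1 := by
        unfold cls
        rw [if_neg (fun h => h _ i1), if_pos (hq1 rfl)]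
      have c2 : cls S2 = 2 := by
        unfold cls
        rw [if_neg (fun h => h _ i2), if_neg]
        intro h
        have := (hp2 0).1 (h _ i2)
        exact absurd this (by decide)
      intro i
      fin_cases i
      · exact ⟨Quot.mk _ (mk S0 hS0), c0⟩
      · exact ⟨Quot.mk _ (mk S1 hS1), c1⟩
      · exact ⟨Quot.mk _ (mk S2 hS2), c2⟩
    have h := Cardinal.mk_congr (_root_.Equiv.ofBijective g ⟨hg1, hg2⟩)
    unfold numSim
    rw [h]
    simp
  refine ⟨?_, ?_, ?_⟩
  · rw [hsim]; norm_cast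
  · rw [hsim]; exact_mod_cast Cardinal.natCast_lt_aleph0 (n := 3)
  -- number of isomorphism classes
  · choose SA eA hS hinj hmin hadj _ _ using fun A : Set ℕ => hA A true
    have hinj : Function.Injective (fun A : Set ℕ =>
        (Quot.mk _ (mk (SA A) (hS A)) : Quot fun A B : CMod (thy (toStr S0)) => Iso A.1 B.1)) := by
      intro A B h
      have heqv : _root_.Equivalence (fun A B : CMod (thy (toStr S0)) => Iso A.1 B.1) :=
        ⟨fun A => iso_refl A.1, fun h => iso_symm h, fun h h' => iso_trans h h'⟩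
      have h2 : Iso (toStr (SA A)) (toStr (SA B)) :=
        heqv.eqvGen_iff.1 (Quot.eqvGen_exact h)
      exact hinv A B (SA A) (SA B) (eA A) (eA B) (hS A) (hS B) (hinj A) (hinj B) (hmin A) (hmin B)
        (hadj A) (hadj B) h2
    have h3 := Cardinal.mk_le_of_injective hinj
    rw [Cardinal.mk_set, Cardinal.mk_nat] at h3
    exact (Cardinal.cantor ℵ₀).trans_le h3

end R624TB
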